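import Pool.Agent.Lib.MP_fc1011_gt.LM.La

/-!
# MP_fc1011_gt, Theorem LIM: clusters of exponents
-/

set_option autoImplicit false

namespace MP_fc1011_gt.LM

open LaurentPolynomial MP_fc1011_gt.MV Finset

namespace CuAux

/-! ## Supports and spans -/

theorem coeff_T_mul (n : ℤ) (W : ℤ[T;T⁻¹]) (j : ℤ) : (T n * W).coeff j = W.coeff (j - n) := by
  have h := AddMonoidAlgebra.coeff_single_mul_eq_mul_coeff (x := W) (m := n) (m₁ := j)
    (r := (1 : ℤ)) (j - n) (fun b _ => by constructor <;> intro h <;> omega)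
  rw [one_mul] at h
  exact h

theorem sub_le_span (V : ℤ[T;T⁻¹]) (i j : ℤ) (hi : V.coeff i ≠ 0) (hj : V.coeff j ≠ 0) :
    |i - j| ≤ span V := by
  have key : ∀ i j : ℤ, V.coeff i ≠ 0 → V.coeff j ≠ 0 → i - j ≤ span V := by
    intro i j hi hj
    have h1 : (i - j).toNat ≤ span V := by
      unfold span
      exact Finset.le_sup (f := fun p : ℤ × ℤ => (p.1 - p.2).toNat) (b := (i, j))
        (mem_product.2 ⟨Finsupp.mem_support_iff.2 hi, Finsupp.mem_support_iff.2 hj⟩)
    omega
  rw [abs_le]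
  have h1 := key i j hi hj
  have h2 := key j i hj hi
  constructor <;> omega

theorem support_mul (D W : ℤ[T;T⁻¹]) (j : ℤ) (h : (D * W).coeff j ≠ 0) :
    ∃ d w, D.coeff d ≠ 0 ∧ W.coeff w ≠ 0 ∧ j = d + w := by
  classical
  have h1 := AddMonoidAlgebra.support_coeff_mul_subset D W (Finsupp.mem_support_iff.2 h)
  obtain ⟨d, hd, w, hw, hdw⟩ := Finset.mem_add.1 h1
  exact ⟨d, w, Finsupp.mem_support_iff.1 hd, Finsupp.mem_support_iff.1 hw, hdw.symm⟩

theorem sub_le_span_mul (D W : ℤ[T;T⁻¹]) (i j : ℤ) (hi : (D * W).coeff i ≠ 0)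
    (hj : (D * W).coeff j ≠ 0) : |i - j| ≤ span D + span W := by
  obtain ⟨d, w, hd, hw, rfl⟩ := support_mul D W i hi
  obtain ⟨d', w', hd', hw', rfl⟩ := support_mul D W j hj
  have h1 := sub_le_span D d d' hd hd'
  have h2 := sub_le_span W w w' hw hw'
  rw [abs_le] at h1 h2 ⊢
  constructor <;> omega

/-- A common bound for the supports of finitely many Laurent polynomials. -/
theorem exists_bound {ι : Type} [Fintype ι] (P : ι → ℤ[T;T⁻¹]) :
    ∃ H : ℕ, ∀ c j, (P c).coeff j ≠ 0 → |j| ≤ H := by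
  classical
  refine ⟨∑ c, (P c).coeff.support.sup Int.natAbs, fun c j hj => ?_⟩
  have h1 : j.natAbs ≤ (P c).coeff.support.sup Int.natAbs :=
    Finset.le_sup (f := Int.natAbs) (Finsupp.mem_support_iff.2 hj)
  have h2 : (P c).coeff.support.sup Int.natAbs ≤ ∑ c, (P c).coeff.support.sup Int.natAbs :=
    single_le_sum (f := fun c => (P c).coeff.support.sup Int.natAbs) (fun _ _ => Nat.zero_le _)
      (mem_univ c)
  rw [Int.abs_eq_natAbs]
  exact_mod_cast h1.trans h2

/-! ## Clusters -/

/-- There is no gap of length `G` between `f c` and `f c'`. -/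
def Same {ι : Type} (f : ι → ℤ) (G : ℤ) (c c' : ι) : Prop :=
  ∀ u, min (f c) (f c') ≤ u → u < max (f c) (f c') → ∃ d, u < f d ∧ f d ≤ u + G

theorem same_refl {ι : Type} (f : ι → ℤ) (G : ℤ) (c : ι) : Same f G c c := by
  intro u h1 h2
  rw [min_self] at h1
  rw [max_self] at h2
  omega

theorem same_symm {ι : Type} (f : ι → ℤ) (G : ℤ) {c c' : ι} (h : Same f G c c') :
    Same f G c' c := by
  intro u h1 h2
  rw [min_comm] at h1
  rw [max_comm] at h2
  exact h u h1 h2

theorem same_trans {ι : Type} (f : ι → ℤ) (G : ℤ) {c c' c'' : ι} (h : Same f G c c')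
    (h' : Same f G c' c'') : Same f G c c'' := by
  intro u h1 h2
  by_cases h3 : min (f c) (f c') ≤ u ∧ u < max (f c) (f c')
  · exact h u h3.1 h3.2
  · refine h' u ?_ ?_
    · omega
    · omega

theorem same_of_le {ι : Type} (f : ι → ℤ) (G : ℤ) {c c' : ι} (h : |f c - f c'| ≤ G) :
    Same f G c c' := by
  intro u h1 h2
  rw [abs_le] at h
  rcases le_total (f c) (f c') with h3 | h3
  · exact ⟨c', by omega, by omega⟩
  · exact ⟨c, by omega, by omega⟩

theorem sub_le_of_same {ι : Type} [Fintype ι] (f : ι → ℤ) (G : ℤ) (hG : 1 ≤ G) {c c' : ι}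
    (h : Same f G c c') : |f c - f c'| ≤ Fintype.card ι * G := by
  classical
  by_contra hcon
  push Not at hcon
  have hmM : max (f c) (f c') - min (f c) (f c') = |f c - f c'| := by
    rw [max_sub_min_eq_abs']
  -- the windows
  have key : ∀ i : Fin (Fintype.card ι + 1), ∃ d, min (f c) (f c') + i * G < f d ∧
      f d ≤ min (f c) (f c') + i * G + G := by
    intro i
    refine h (min (f c) (f c') + i * G) ?_ ?_
    · have : 0 ≤ (i : ℤ) * G := by positivity
      omega
    · have h1 : (i : ℤ) * G ≤ Fintype.card ι * G := by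
        apply mul_le_mul_of_nonneg_right _ (by omega)
        have := i.2
        exact_mod_cast (by omega : (i : ℕ) ≤ Fintype.card ι)
      omega
  choose d hd1 hd2 using key
  have hinj : Function.Injective d := by
    intro i j hij
    by_contra hne
    have hlt : ∀ i j : Fin (Fintype.card ι + 1), d i = d j → (i : ℕ) < j → False := by
      intro i j hij hlt
      have h1 := hd2 i
      have h2 := hd1 j
      rw [← hij] at h2
      have h3 : ((i : ℤ) + 1) * G ≤ (j : ℤ) * G := by
        apply mul_le_mul_of_nonneg_right _ (by omega)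
        exact_mod_cast hlt
      have h4 : ((i : ℤ) + 1) * G = i * G + G := by ring
      omega
    rcases Nat.lt_or_gt_of_ne (fun h => hne (Fin.ext h)) with h1 | h1
    · exact hlt i j hij h1
    · exact hlt j i hij.symm h1
  have := Fintype.card_le_of_injective d hinj
  rw [Fintype.card_fin] at this
  omega

theorem cluster_main {ι : Type} [Fintype ι] (P : ι → ℤ[T;T⁻¹]) (H S G : ℕ)
    (hH : ∀ c j, (P c).coeff j ≠ 0 → |j| ≤ H) (E E' : ι → ℤ)
    (hS : ∀ i j, (∑ c, T (E c) * P c).coeff i ≠ 0 → (∑ c, T (E c) * P c).coeff j ≠ 0 →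
      |i - j| ≤ (S : ℤ)) (hG : S + 2 * H ≤ G)
    (hE' : ∀ c c', Same E G c c' → E' c - E' c' = E c - E c') :
    ∃ x : ℤ, ∑ c, T (E' c) * P c = T x * ∑ c, T (E c) * P c := by
  classical
  have hGz : (S : ℤ) + 2 * H ≤ G := by exact_mod_cast hG
  let st : Setoid ι := ⟨Same E G, same_refl E G, same_symm E G, same_trans E G⟩
  let rep : ι → ι := fun c => (Quotient.mk st c).out
  have hrep : ∀ c, Same E G (rep c) c := fun c => Quotient.mk_out (s := st) c
  have hrep2 : ∀ c c', Same E G c c' → rep c = rep c' := by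
    intro c c' h
    show (Quotient.mk st c).out = (Quotient.mk st c').out
    rw [Quotient.sound (s := st) h]
  let Sr : ι → ℤ[T;T⁻¹] := fun r => ∑ c with rep c = r, T (E c) * P c
  have hsum : ∑ r, Sr r = ∑ c, T (E c) * P c := Finset.sum_fiberwise univ rep _
  have hcoef : ∀ r j, (Sr r).coeff j ≠ 0 → ∃ c, rep c = r ∧ |E c - j| ≤ H := by
    intro r j hj
    have h1 : (Sr r).coeff j = ∑ c with rep c = r, (T (E c) * P c).coeff j := by
      simp only [Sr]
      rw [AddMonoidAlgebra.coeff_sum, Finsupp.finsetSum_apply]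
    rw [h1] at hj
    obtain ⟨c, hc, hc2⟩ := Finset.exists_ne_zero_of_sum_ne_zero hj
    rw [coeff_T_mul] at hc2
    refine ⟨c, (mem_filter.1 hc).2, ?_⟩
    rw [abs_sub_comm]
    exact hH c _ hc2
  have hdisj : ∀ r r' j, (Sr r).coeff j ≠ 0 → (Sr r').coeff j ≠ 0 → r = r' := by
    intro r r' j h1 h2
    obtain ⟨c, hc, hc2⟩ := hcoef r j h1
    obtain ⟨c', hc', hc2'⟩ := hcoef r' j h2
    rw [← hc, ← hc']
    apply hrep2
    apply same_of_le
    rw [abs_le] at hc2 hc2' ⊢
    constructor <;> omega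
  have hfull : ∀ r j, (Sr r).coeff j ≠ 0 → (∑ c, T (E c) * P c).coeff j ≠ 0 := by
    intro r j h1
    rw [← hsum, AddMonoidAlgebra.coeff_sum, Finsupp.finsetSum_apply,
      Finset.sum_eq_single r]
    · exact h1
    · intro r' _ hne
      by_contra h2
      exact hne (hdisj r' r j h2 h1)
    · intro h2
      exact absurd (mem_univ r) h2
  have hex : ∀ r, Sr r ≠ 0 → ∃ j, (Sr r).coeff j ≠ 0 := by
    intro r hr
    by_contra hcon
    push Not at hcon
    apply hr
    ext j
    exact hcon j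
  have huniq : ∀ r r', Sr r ≠ 0 → Sr r' ≠ 0 → r = r' := by
    intro r r' h1 h2
    obtain ⟨j, hj⟩ := hex r h1
    obtain ⟨j', hj'⟩ := hex r' h2
    obtain ⟨c, hc, hc2⟩ := hcoef r j hj
    obtain ⟨c', hc', hc2'⟩ := hcoef r' j' hj'
    have h3 := hS j j' (hfull r j hj) (hfull r' j' hj')
    rw [← hc, ← hc']
    apply hrep2
    apply same_of_le
    rw [abs_le] at hc2 hc2' h3 ⊢
    constructor <;> omega
  have hsum' : ∑ c, T (E' c) * P c = ∑ r, T (E' r - E r) * Sr r := by
    rw [← Finset.sum_fiberwise univ rep (fun c => T (E' c) * P c)]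
    refine sum_congr rfl (fun r _ => ?_)
    simp only [Sr]
    rw [mul_sum]
    refine sum_congr rfl (fun c hc => ?_)
    have h1 : rep c = r := (mem_filter.1 hc).2
    have h2 := hE' _ _ (hrep c)
    rw [h1] at h2
    rw [← mul_assoc, ← T_add]
    congr 2
    omega
  by_cases h0 : ∃ r, Sr r ≠ 0
  · obtain ⟨r, hr⟩ := h0
    have hz : ∀ r', r' ≠ r → Sr r' = 0 := by
      intro r' hne
      by_contra h1
      exact hne (huniq r' r h1 hr)
    refine ⟨E' r - E r, ?_⟩
    rw [hsum', ← hsum, Finset.sum_eq_single r, Finset.sum_eq_single r]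
    · intro r' _ hne
      exact hz r' hne
    · intro h2
      exact absurd (mem_univ r) h2
    · intro r' _ hne
      rw [hz r' hne, mul_zero]
    · intro h2
      exact absurd (mem_univ r) h2
  · push Not at h0
    refine ⟨0, ?_⟩
    rw [hsum', ← hsum]
    simp [h0]

end CuAux

open CuAux in
theorem tCu : S_Cu := by
  classical
  intro ι _ n e P D _
  obtain ⟨H, hH⟩ := exists_bound P
  -- the constants of `La`
  let L : ((ι × ι) → Bool) → (ι × ι) → ℕ → ℤ := fun π p i =>
    if π p = true then e p.1 i - e p.2 i else 0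
  have hLa : ∀ π, ∃ C : ℕ, ∀ (a : ℕ → ℤ) (B : ℕ), (∀ p, |∑ i ∈ range n, L π p i * a i| ≤ B) →
    ∃ a' : ℕ → ℤ, (∀ p, ∑ i ∈ range n, L π p i * a' i = ∑ i ∈ range n, L π p i * a i) ∧
      ∀ i, i < n → |a' i| ≤ C * B := fun π => tLa (ι × ι) n (L π)
  choose C₁ hC₁ using hLa
  have hLs : ∀ π p (a : ℕ → ℤ), ∑ i ∈ range n, L π p i * a i =
      if π p = true then ∑ i ∈ range n, e p.1 i * a i - ∑ i ∈ range n, e p.2 i * a i
      else 0 := by
    intro π p a
    by_cases h : π p = true
    · rw [if_pos h, ← sum_sub_distrib]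
      refine sum_congr rfl (fun i _ => ?_)
      simp only [L]
      rw [if_pos h]
      ring
    · rw [if_neg h]
      refine sum_eq_zero (fun i _ => ?_)
      simp only [L]
      rw [if_neg h, zero_mul]
  let C₀ : ℕ := ∑ π, C₁ π
  let K : ℕ := span D + 2 * H + 1
  refine ⟨C₀ * (Fintype.card ι * K), fun a W s hW hs => ?_⟩
  let E : ι → ℤ := fun c => ∑ i ∈ range n, e c i * a i
  let G : ℕ := s + K
  have hGK : G = s + K := rfl
  have hG1 : (1 : ℤ) ≤ G := by
    have : 1 ≤ G := by simp only [G, K]; omega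
    exact_mod_cast this
  let π : (ι × ι) → Bool := fun p => decide (Same E G p.1 p.2)
  obtain ⟨a', ha', hb⟩ := hC₁ π a (Fintype.card ι * G) (by
    intro p
    rw [hLs]
    by_cases h : π p = true
    · rw [if_pos h]
      have h1 : Same E G p.1 p.2 := by simpa [π] using h
      have h2 := sub_le_of_same E G hG1 h1
      push_cast
      exact h2
    · rw [if_neg h, abs_zero]
      positivity)
  obtain ⟨x, hx⟩ := cluster_main P H (s + span D) G hH E
    (fun c => ∑ i ∈ range n, e c i * a' i) (by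
      intro i j hi hj
      have h1 : ∑ c, T (E c) * P c = D * W := hW.symm
      rw [h1] at hi hj
      have h2 := sub_le_span_mul D W i j hi hj
      push_cast
      have h3 : (span W : ℤ) ≤ s := by exact_mod_cast hs
      omega) (by simp only [G, K]; omega) (by
      intro c c' h
      have h1 := ha' (c, c')
      rw [hLs, hLs] at h1
      have h2 : π (c, c') = true := by simpa [π] using h
      rw [if_pos h2, if_pos h2] at h1
      exact h1)
  refine ⟨a', x, ?_, hx⟩
  intro i hi
  refine (hb i hi).trans ?_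
  have h1 : C₁ π ≤ C₀ := single_le_sum (f := C₁) (fun _ _ => Nat.zero_le _) (mem_univ π)
  have h2 : G ≤ K * (s + 1) := by
    have : 1 ≤ K := by simp only [K]; omega
    rw [hGK]
    nlinarith
  have h3 : C₁ π * (Fintype.card ι * G) ≤ C₀ * (Fintype.card ι * K) * (s + 1) := by
    calc C₁ π * (Fintype.card ι * G) ≤ C₀ * (Fintype.card ι * (K * (s + 1))) :=
          Nat.mul_le_mul h1 (Nat.mul_le_mul_left _ h2)
      _ = C₀ * (Fintype.card ι * K) * (s + 1) := by ring
  exact_mod_cast h3

end MP_fc1011_gt.LM
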