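import Pool.Agent.Lib.MP_fc1011_gt.MV.Defs

/-!
# MP_fc1011_gt: full twists inserted into a fixed diagram

A `Parent` is a diagram in the sense of `MV.Diagram` in which some of the twist regions are marked.  For every
sequence of integers `a` we get a diagram: `a i` full twists are inserted into the `i`-th region if it is marked.
-/

set_option autoImplicit false

namespace MP_fc1011_gt.LM

open MP_fc1011_gt.MV

/-- Insert `a i` full twists (`2 * a i` half twists) into the `i`-th region of the list, if it is marked. -/
def ins : List (Region × Bool) → (ℕ → ℤ) → List Region
  | [], _ => []
  | (r, b) :: rs, a =>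
    { r with halfTwists := r.halfTwists + if b = true then 2 * a 0 else 0 } :: ins rs fun i => a (i + 1)

theorem ins_valid {m : ℕ} : ∀ (sites : List (Region × Bool)) (a : ℕ → ℤ),
    (∀ r ∈ sites, r.1.first + r.1.strands ≤ m) → ∀ r ∈ ins sites a, r.first + r.strands ≤ m
  | [], _, _, r, hr => by simp [ins] at hr
  | (r₀, b) :: rs, a, h, r, hr => by
    unfold ins at hr
    rcases List.mem_cons.mp hr with h1 | h1
    · rw [h1]
      exact h (r₀, b) List.mem_cons_self
    · exact ins_valid rs _ (fun r' hr' => h r' (List.mem_cons_of_mem _ hr')) r h1

/-- A diagram with `m` strands in which some of the twist regions are marked. -/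
structure Parent (m : ℕ) where
  /-- how the ends are joined -/
  closure : Closure m
  /-- the twist regions, from the top to the bottom; `true` means marked -/
  sites : List (Region × Bool)
  valid : ∀ r ∈ sites, r.1.first + r.1.strands ≤ m

/-- The diagram with `a i` full twists inserted into the `i`-th region, for all marked regions. -/
def Parent.diagram {m : ℕ} (P : Parent m) (a : ℕ → ℤ) : Diagram m where
  closure := P.closure
  regions := ins P.sites a
  valid := ins_valid P.sites a P.valid

/-- The number of marked regions with an even number of strands. -/
def evenMarked : List (Region × Bool) → ℕ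
  | [] => 0
  | (r, b) :: rs => (if b = true ∧ Even r.strands then 1 else 0) + evenMarked rs

end MP_fc1011_gt.LM
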