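import Pool.Agent.Lib.MP_fc1011_gt.LM.Spec

/-!
# MP_fc1011_gt, Theorem LIM: the evaluation at `exp (π i / 4)`
-/

set_option autoImplicit false

namespace MP_fc1011_gt.LM

open LaurentPolynomial MP_fc1011_gt.MV Finset

theorem A0_val : (A0 : ℂ) = Complex.exp (Real.pi / 4 * Complex.I) := rfl

theorem A0_pow4 : (A0 : ℂ) ^ 4 = -1 := by
  rw [A0_val, ← Complex.exp_nat_mul]
  have h : ((4 : ℕ) : ℂ) * (Real.pi / 4 * Complex.I) = Real.pi * Complex.I := by
    push_cast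
    ring
  rw [h, Complex.exp_pi_mul_I]

theorem A0_norm : ‖(A0 : ℂ)‖ = 1 := by
  rw [A0_val]
  have h : (Real.pi / 4 * Complex.I : ℂ) = ((Real.pi / 4 : ℝ) : ℂ) * Complex.I := by
    push_cast
    ring
  rw [h, Complex.norm_exp_ofReal_mul_I]

theorem ev_T (n : ℤ) : ev (T n) = ((A0 ^ n : ℂˣ) : ℂ) := by
  unfold ev
  rw [LaurentPolynomial.eval₂_T]

theorem A0_inv : ((A0⁻¹ : ℂˣ) : ℂ) = -(A0 : ℂ) ^ 3 := by
  have h : (A0 : ℂ) * (-(A0 : ℂ) ^ 3) = 1 := by
    have := A0_pow4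
    linear_combination -this
  have h2 : (A0 : ℂ) * ((A0⁻¹ : ℂˣ) : ℂ) = 1 := A0.mul_inv
  exact mul_left_cancel₀ A0.ne_zero (h2.trans h.symm)

theorem dl_A0 : dl A0 = 0 := by
  unfold dl
  rw [A0_inv]
  have := A0_pow4
  linear_combination -(A0 : ℂ) ^ 2 * this

theorem ev_delta : ev delta = 0 := by
  unfold delta
  rw [map_sub, map_neg, ev_T, ev_T]
  have h := dl_A0
  unfold dl at h
  have h1 : ((A0 ^ (2 : ℤ) : ℂˣ) : ℂ) = (A0 : ℂ) ^ 2 := by
    rw [show (2 : ℤ) = ((2 : ℕ) : ℤ) from rfl, zpow_natCast, Units.val_pow_eq_pow_val]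
  have h2 : ((A0 ^ (-2 : ℤ) : ℂˣ) : ℂ) = ((A0⁻¹ : ℂˣ) : ℂ) ^ 2 := by
    rw [zpow_neg, ← inv_zpow, show (2 : ℤ) = ((2 : ℕ) : ℤ) from rfl, zpow_natCast,
      Units.val_pow_eq_pow_val]
  rw [h1, h2, h]

theorem UG_apply (m i : ℕ) (φ : Closure m → ℂ) (μ : Closure m) :
    UG m i φ μ = (0 : ℂ) ^ lp μ i * φ (μ.cap i) := rfl

theorem TL_UG {m i k : ℕ} (h : i + k ≤ m) : TL (0 : ℂ) k (fun j => UG m (i + j)) where
  sq j hj := by
    apply LinearMap.ext
    intro φ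
    funext μ
    change UG m (i + j) (UG m (i + j) φ) μ = 0 * UG m (i + j) φ μ
    rw [UG_apply, UG_apply, UG_apply, lp_cap_self μ (by omega), cap_cap_self μ (by omega)]
    ring
  up j hj := by
    apply LinearMap.ext
    intro φ
    funext μ
    obtain ⟨h1, h2, h3⟩ := cap_up μ (i := i + j) (by omega)
    change UG m (i + j) (UG m (i + (j + 1)) (UG m (i + j) φ)) μ = UG m (i + j) φ μ
    rw [← add_assoc, UG_apply, UG_apply, UG_apply, UG_apply, h1, h2, h3, pow_zero, one_mul,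
      one_mul]
  dn j hj := by
    apply LinearMap.ext
    intro φ
    funext μ
    obtain ⟨h1, h2, h3⟩ := cap_dn μ (i := i + j) (by omega)
    change UG m (i + (j + 1)) (UG m (i + j) (UG m (i + (j + 1)) φ)) μ = UG m (i + (j + 1)) φ μ
    rw [← add_assoc, UG_apply, UG_apply, UG_apply, UG_apply, h1, h2, h3, pow_zero, one_mul,
      one_mul]
  comm a b hab hb := by
    apply LinearMap.ext
    intro φ
    funext μ
    obtain ⟨h1, h2⟩ := cap_comm μ (i := i + a) (j := i + b) (by omega) (by omega)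
    change UG m (i + a) (UG m (i + b) φ) μ = UG m (i + b) (UG m (i + a) φ) μ
    rw [UG_apply, UG_apply, UG_apply, UG_apply, ← mul_assoc, ← pow_add, h1, h2, pow_add,
      mul_assoc]

private theorem dl_inv' (A : ℂˣ) : dl A⁻¹ = dl A := by
  unfold dl
  rw [inv_inv]
  ring

theorem tE1 : S_E1 := by
  refine ⟨A0_pow4, A0_norm, ev_T, ev_delta, ?_, fun m i k h => TL_UG h⟩
  rintro ε (rfl | rfl)
  · rw [zpow_one]
    exact dl_A0
  · rw [zpow_neg, zpow_one, dl_inv']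
    exact dl_A0

end MP_fc1011_gt.LM
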