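import Pool.Agent.Lib.MP_fc1011_gt.LM.Zf

/-!
# MP_fc1011_gt, Theorem LIM, module Zt: the full twist at `A ^ 4 = -1`
-/

set_option autoImplicit false

namespace MP_fc1011_gt.LM

open MP_fc1011_gt.MV

variable {E : Type} [Ring E] [Algebra ℂ E]

private theorem JJ_smul (c : ℂ) (s : ℕ → E) : ∀ j, JJ (fun i => c • s i) j = c ^ (2 * j) • JJ s j
  | 0 => by
    change (1 : E) = c ^ (2 * 0) • (1 : E)
    rw [Nat.mul_zero, pow_zero, one_smul]
  | j + 1 => by
    change (c • s j) * JJ (fun i => c • s i) j * (c • s j) = c ^ (2 * (j + 1)) • (s j * JJ s j * s j)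
    rw [JJ_smul c s j]
    simp only [smul_mul_assoc, mul_smul_comm, smul_smul]
    congr 1
    ring

private theorem FF_smul (c : ℂ) (s : ℕ → E) : ∀ j,
    FF (fun i => c • s i) j = c ^ (j * (j - 1)) • FF s j
  | 0 => by
    change (1 : E) = c ^ (0 * (0 - 1)) • (1 : E)
    rw [Nat.zero_mul, pow_zero, one_smul]
  | j + 1 => by
    change FF (fun i => c • s i) j * JJ (fun i => c • s i) j =
      c ^ ((j + 1) * (j + 1 - 1)) • (FF s j * JJ s j)
    rw [FF_smul c s j, JJ_smul c s j]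
    simp only [smul_mul_assoc, mul_smul_comm, smul_smul]
    congr 1
    rcases j with _ | j
    · simp
    · simp only [Nat.add_sub_cancel]
      ring

theorem tZt : S_Zt := by
  intro E _ _ A k e hA h
  let _ : Algebra ℚ E := Algebra.compHom E (algebraMap ℚ ℂ)
  obtain ⟨B, hB⟩ : ∃ B : ℂ, B = ((A⁻¹ : ℂˣ) : ℂ) := ⟨_, rfl⟩
  have hAB : (A : ℂ) * B = 1 := by rw [hB]; exact A.mul_inv
  have hB4 : B ^ 4 = -1 := by
    have h1 : (A : ℂ) ^ 4 * B ^ 4 = 1 := by rw [← mul_pow, hAB, one_pow]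
    rw [hA] at h1
    linear_combination -h1
  have hd : dl A = 0 := by
    unfold dl
    rw [← hB]
    have h1 : (A : ℂ) ^ 2 = -B ^ 2 := by
      calc (A : ℂ) ^ 2 = (A : ℂ) ^ 4 * B ^ 2 - (A : ℂ) ^ 2 * ((A * B) ^ 2 - 1) := by ring
        _ = -B ^ 2 := by rw [hA, hAB]; ring
    rw [h1]
    ring
  rw [hd] at h
  have hx : XL k (fun j => B ^ 2 • e j) :=
    { sq := fun j hj => by
        rw [smul_mul_smul_comm, h.sq j hj, zero_smul, smul_zero]
      up := fun j hj => by
        rw [smul_mul_smul_comm, smul_mul_smul_comm, h.up j hj, ← neg_smul]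
        congr 1
        linear_combination (B ^ 2) * hB4
      dn := fun j hj => by
        rw [smul_mul_smul_comm, smul_mul_smul_comm, h.dn j hj, ← neg_smul]
        congr 1
        linear_combination (B ^ 2) * hB4
      comm := fun i j hij hj => by
        rw [smul_mul_smul_comm, smul_mul_smul_comm, h.comm i j hij hj] }
  have hsg : sg A e = fun j => (A : ℂ) • (1 + B ^ 2 • e j) := by
    funext j
    unfold sg
    rw [← hB, smul_add, smul_smul]
    congr 2
    linear_combination (-B) * hAB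
  have hF : FF (sg A e) k = (A : ℂ) ^ (k * (k - 1)) • FF (fun j => 1 + B ^ 2 • e j) k := by
    rw [hsg]
    exact FF_smul (A : ℂ) (fun j => 1 + B ^ 2 • e j) k
  obtain ⟨h1, h2⟩ := tZf E k _ hx
  obtain ⟨u, hu⟩ : ∃ u : ℂ, u = (A : ℂ) ^ (k * (k - 1)) := ⟨_, rfl⟩
  rw [hF, ← hu]
  constructor
  · intro hk
    rw [← smul_sub, smul_mul_smul_comm, h1 hk, smul_zero]
  · intro hk
    rw [smul_mul_smul_comm, h2 hk]

end MP_fc1011_gt.LM
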