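import Pool.Agent.Lib.MP_fc1011_gt.LM.Hz
import Pool.Agent.Lib.MP_fc1011_gt.LM.E1
import Pool.Agent.Lib.MP_fc1011_gt.LM.Zt

/-!
# MP_fc1011_gt, Theorem LIM: specialisation and boundedness of the powers of one half twist
-/

set_option autoImplicit false

namespace MP_fc1011_gt.LM

open LaurentPolynomial MP_fc1011_gt.MV Finset

variable {m : ℕ}

/-- The operators over the complex numbers. -/
abbrev OpC (m : ℕ) := Module.End ℂ (Closure m → ℂ)

/-! ## Specialisation -/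

theorem Comp.one : Comp (1 : Op m) (1 : OpC m) := fun _ _ => rfl

theorem Comp.mul {F F' : Op m} {G G' : OpC m} (h : Comp F G) (h' : Comp F' G') :
    Comp (F * F') (G * G') := by
  intro φ μ
  change ev (F (F' φ) μ) = G (G' fun ν => ev (φ ν)) μ
  rw [h (F' φ) μ]
  have h1 : (fun ν => ev (F' φ ν)) = G' fun ν => ev (φ ν) := funext fun ν => h' φ ν
  rw [h1]

theorem Comp.add {F F' : Op m} {G G' : OpC m} (h : Comp F G) (h' : Comp F' G') :
    Comp (F + F') (G + G') := by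
  intro φ μ
  change ev (F φ μ + F' φ μ) = G _ μ + G' _ μ
  rw [map_add, h φ μ, h' φ μ]

theorem Comp.smul {F : Op m} {G : OpC m} (h : Comp F G) {c : ℤ[T;T⁻¹]} {d : ℂ} (hd : ev c = d) :
    Comp (c • F) (d • G) := by
  intro φ μ
  change ev (c * F φ μ) = d * G _ μ
  rw [map_mul, h φ μ, hd]

theorem Comp.UU (i : ℕ) : Comp (UU m i) (UG m i) := by
  intro φ μ
  rw [UU_apply, UG_apply, map_mul, map_pow, ev_delta]

theorem Comp.pow {F : Op m} {G : OpC m} (h : Comp F G) : ∀ n : ℕ, Comp (F ^ n) (G ^ n)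
  | 0 => by
    rw [pow_zero, pow_zero]
    exact Comp.one
  | n + 1 => by
    rw [pow_succ, pow_succ]
    exact (Comp.pow h n).mul h

theorem Comp.zpow {F : (Op m)ˣ} {G : (OpC m)ˣ} (h : Comp (F : Op m) (G : OpC m))
    (h' : Comp ((F⁻¹ : (Op m)ˣ) : Op m) ((G⁻¹ : (OpC m)ˣ) : OpC m)) (n : ℤ) :
    Comp ((F ^ n : (Op m)ˣ) : Op m) ((G ^ n : (OpC m)ˣ) : OpC m) := by
  rcases Int.eq_nat_or_neg n with ⟨a, rfl | rfl⟩
  · rw [zpow_natCast, zpow_natCast, Units.val_pow_eq_pow_val, Units.val_pow_eq_pow_val]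
    exact h.pow a
  · rw [zpow_neg, zpow_neg, ← inv_zpow, ← inv_zpow, zpow_natCast, zpow_natCast,
      Units.val_pow_eq_pow_val, Units.val_pow_eq_pow_val]
    exact h'.pow a

theorem Comp.RR {s : ℕ → Op m} {t : ℕ → OpC m} (h : ∀ j, Comp (s j) (t j)) :
    ∀ j, Comp (RR s j) (RR t j)
  | 0 => Comp.one
  | j + 1 => (h j).mul (Comp.RR h j)

theorem Comp.HH {s : ℕ → Op m} {t : ℕ → OpC m} (h : ∀ j, Comp (s j) (t j)) :
    ∀ j, Comp (HH s j) (HH t j)
  | 0 => Comp.one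
  | j + 1 => (Comp.HH h j).mul (Comp.RR h j)

theorem comp_gn (ε : ℤ) (r : Region) (j : ℕ) : Comp (gn m ε r j) (gz m ε r j) := by
  unfold gn gz sg
  refine Comp.add (Comp.smul Comp.one ?_) (Comp.smul (Comp.UU _) ?_)
  · rw [tu_val, ev_T]
  · rw [tu_inv, ev_T, zpow_neg]

/-! ## Boundedness -/

theorem Bd.one : Bd (1 : OpC m) 1 := ⟨zero_le_one, fun φ B h μ => by
  rw [one_mul]
  exact h μ⟩

theorem Bd.mul {G G' : OpC m} {K K' : ℝ} (h : Bd G K) (h' : Bd G' K') : Bd (G * G') (K * K') :=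
  ⟨mul_nonneg h.1 h'.1, fun φ B hφ μ => by
    rw [mul_assoc]
    exact h.2 (G' φ) (K' * B) (h'.2 φ B hφ) μ⟩

theorem Bd.add {G G' : OpC m} {K K' : ℝ} (h : Bd G K) (h' : Bd G' K') : Bd (G + G') (K + K') :=
  ⟨add_nonneg h.1 h'.1, fun φ B hφ μ => by
    rw [add_mul]
    exact (norm_add_le _ _).trans (add_le_add (h.2 φ B hφ μ) (h'.2 φ B hφ μ))⟩

theorem Bd.smul {G : OpC m} {K : ℝ} (h : Bd G K) (c : ℂ) : Bd (c • G) (‖c‖ * K) :=
  ⟨mul_nonneg (norm_nonneg c) h.1, fun φ B hφ μ => by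
    change ‖c * G φ μ‖ ≤ _
    rw [norm_mul, mul_assoc]
    exact mul_le_mul_of_nonneg_left (h.2 φ B hφ μ) (norm_nonneg c)⟩

theorem Bd.mono {G : OpC m} {K K' : ℝ} (h : Bd G K) (hK : K ≤ K') : Bd G K' :=
  ⟨h.1.trans hK, fun φ B hφ μ => (h.2 φ B hφ μ).trans
    (mul_le_mul_of_nonneg_right hK ((norm_nonneg _).trans (hφ μ)))⟩

theorem Bd.smul_one {G : OpC m} {K : ℝ} (h : Bd G K) {c : ℂ} (hc : ‖c‖ = 1) : Bd (c • G) K := by
  have := h.smul c
  rwa [hc, one_mul] at this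

theorem Bd.UG (i : ℕ) : Bd (UG m i) 1 := ⟨zero_le_one, fun φ B h μ => by
  rw [UG_apply, norm_mul, one_mul]
  have hB : 0 ≤ B := (norm_nonneg _).trans (h μ)
  have h1 : ‖(0 : ℂ) ^ lp μ i‖ ≤ 1 := by
    rcases Nat.eq_zero_or_pos (lp μ i) with h0 | h0
    · rw [h0, pow_zero, norm_one]
    · rw [zero_pow (by omega), norm_zero]
      exact zero_le_one
  calc ‖(0 : ℂ) ^ lp μ i‖ * ‖φ (μ.cap i)‖ ≤ 1 * B :=
        mul_le_mul h1 (h _) (norm_nonneg _) zero_le_one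
    _ = B := one_mul B⟩

theorem Bd.pow {G : OpC m} {K : ℝ} (h : Bd G K) : ∀ n : ℕ, Bd (G ^ n) (K ^ n)
  | 0 => by
    rw [pow_zero, pow_zero]
    exact Bd.one
  | n + 1 => by
    rw [pow_succ, pow_succ]
    exact (Bd.pow h n).mul h

theorem exBd_RR {s : ℕ → OpC m} (h : ∀ j, ∃ K, Bd (s j) K) : ∀ j, ∃ K, Bd (MV.RR s j) K
  | 0 => ⟨1, Bd.one⟩
  | j + 1 => by
    obtain ⟨K, hK⟩ := h j
    obtain ⟨K', hK'⟩ := exBd_RR h j
    exact ⟨K * K', hK.mul hK'⟩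

theorem exBd_HH {s : ℕ → OpC m} (h : ∀ j, ∃ K, Bd (s j) K) : ∀ j, ∃ K, Bd (MV.HH s j) K
  | 0 => ⟨1, Bd.one⟩
  | j + 1 => by
    obtain ⟨K, hK⟩ := exBd_HH h j
    obtain ⟨K', hK'⟩ := exBd_RR h j
    exact ⟨K * K', hK.mul hK'⟩

theorem exBd_sg (A : ℂˣ) (f j : ℕ) : ∃ K, Bd (sg A (fun j => UG m (f + j)) j : OpC m) K :=
  ⟨_, (Bd.one.smul _).add ((Bd.UG _).smul _)⟩

/-! ## Powers -/

theorem bd_pow_unipotent {X N : OpC m} {u : ℂ} {K : ℝ} (hu : ‖u‖ = 1) (hX : X = u • (1 : OpC m) + N)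
    (hN : N * N = 0) (hK : Bd N K) (n : ℕ) : Bd (X ^ n) (1 + n * K) := by
  have h1 : ∃ c : ℂ, ‖c‖ ≤ n ∧ X ^ n = (u ^ n) • (1 : OpC m) + c • N := by
    induction n with
    | zero =>
      refine ⟨0, ?_, ?_⟩
      · rw [norm_zero]
        exact Nat.cast_nonneg _
      · rw [pow_zero, pow_zero, one_smul, zero_smul, add_zero]
    | succ n ih =>
      obtain ⟨c, hc, h⟩ := ih
      refine ⟨u ^ n + c * u, ?_, ?_⟩
      · refine (norm_add_le _ _).trans ?_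
        rw [norm_pow, norm_mul, hu, one_pow, mul_one]
        push_cast
        linarith
      · rw [pow_succ, h, hX]
        simp only [mul_add, add_mul, smul_mul_assoc, mul_smul_comm, mul_one, one_mul,
          hN, smul_zero, add_zero]
        rw [pow_succ]
        module
  obtain ⟨c, hc, h⟩ := h1
  rw [h]
  have hun : ‖u ^ n‖ = 1 := by rw [norm_pow, hu, one_pow]
  refine ((Bd.one.smul_one hun).add (hK.smul c)).mono ?_
  have := mul_le_mul_of_nonneg_right hc hK.1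
  linarith

theorem bd_pow_involution {X : OpC m} {v : ℂ} {K : ℝ} (hv : ‖v‖ = 1) (hX : X * X = v • (1 : OpC m))
    (hK : Bd X K) (n : ℕ) : Bd (X ^ n) (1 + K) := by
  have h1 : ∃ c : ℂ, ‖c‖ = 1 ∧ (X ^ n = c • (1 : OpC m) ∨ X ^ n = c • X) := by
    induction n with
    | zero => exact ⟨1, norm_one, Or.inl (by rw [pow_zero, one_smul])⟩
    | succ n ih =>
      obtain ⟨c, hc, h | h⟩ := ih
      · refine ⟨c, hc, Or.inr ?_⟩
        rw [pow_succ, h, smul_mul_assoc, one_mul]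
      · refine ⟨c * v, ?_, Or.inl ?_⟩
        · rw [norm_mul, hc, hv, one_mul]
        · rw [pow_succ, h, smul_mul_assoc, hX, smul_smul]
  obtain ⟨c, hc, h | h⟩ := h1
  · rw [h]
    exact (Bd.one.smul_one hc).mono (by have := hK.1; linarith)
  · rw [h]
    exact (hK.smul_one hc).mono (by linarith)

/-- The two cases together. -/
theorem bd_zpow {X : (OpC m)ˣ} {K K' : ℝ} (hK : Bd (X : OpC m) K)
    (hK' : Bd ((X⁻¹ : (OpC m)ˣ) : OpC m) K') {k : ℕ} {u : ℂ} (hu : ‖u‖ = 1)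
    (he : Even k → ((X : OpC m) - u • (1 : OpC m)) * ((X : OpC m) - u • (1 : OpC m)) = 0)
    (ho : ¬ Even k → (X : OpC m) * (X : OpC m) = (u * u) • (1 : OpC m)) :
    ∃ C : ℝ, 0 ≤ C ∧ ∀ (a : ℤ) (B : ℝ), 1 ≤ B → |(a : ℝ)| ≤ B →
      Bd ((X ^ a : (OpC m)ˣ) : OpC m) (C * B ^ (if Even k then 1 else 0)) := by
  have hu0 : u ≠ 0 := by
    rintro rfl
    rw [norm_zero] at hu
    exact zero_ne_one hu
  by_cases hk : Even k
  · obtain ⟨N, hN⟩ : ∃ N : OpC m, N = (X : OpC m) - u • (1 : OpC m) := ⟨_, rfl⟩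
    have h0 := he hk
    rw [← hN] at h0
    have hX : (X : OpC m) = u • (1 : OpC m) + N := by rw [hN]; abel
    have hBN : Bd N (K + 1) := by
      have h1 : N = (X : OpC m) + (-u) • (1 : OpC m) := by rw [hN]; module
      rw [h1]
      exact hK.add (Bd.one.smul_one (by rw [norm_neg, hu]))
    have hinv : ((X⁻¹ : (OpC m)ˣ) : OpC m) = u⁻¹ • (1 : OpC m) + (-(u⁻¹ * u⁻¹)) • N := by
      have h2 : (X : OpC m) * (u⁻¹ • (1 : OpC m) + (-(u⁻¹ * u⁻¹)) • N) = 1 := by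
        rw [hX]
        simp only [mul_add, add_mul, smul_mul_assoc, mul_smul_comm, smul_smul, mul_one, one_mul,
          h0, add_zero, smul_add]
        have h3 : u⁻¹ * u = 1 := inv_mul_cancel₀ hu0
        have h4 : -(u⁻¹ * u⁻¹) * u = -u⁻¹ := by linear_combination (-u⁻¹) * h3
        rw [h3, h4]
        module
      exact (Units.inv_eq_of_mul_eq_one_right h2)
    have hui : ‖u⁻¹‖ = 1 := by rw [norm_inv, hu, inv_one]
    have hN2 : ((-(u⁻¹ * u⁻¹)) • N) * ((-(u⁻¹ * u⁻¹)) • N) = 0 := by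
      rw [smul_mul_assoc, mul_smul_comm, h0, smul_zero, smul_zero]
    have hBN2 : Bd ((-(u⁻¹ * u⁻¹)) • N) (K + 1) := by
      refine hBN.smul_one ?_
      rw [norm_neg, norm_mul, hui, one_mul]
    refine ⟨1 + (K + 1), by have := hK.1; linarith, ?_⟩
    intro a B hB ha
    rw [if_pos hk, pow_one]
    have hfin : ∀ n : ℕ, (n : ℝ) ≤ B → 1 + n * (K + 1) ≤ (1 + (K + 1)) * B := by
      intro n hn
      have h5 : (n : ℝ) * (K + 1) ≤ B * (K + 1) :=
        mul_le_mul_of_nonneg_right hn (by have := hK.1; linarith)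
      linarith
    rcases Int.eq_nat_or_neg a with ⟨n, rfl | rfl⟩
    · rw [zpow_natCast, Units.val_pow_eq_pow_val]
      refine (bd_pow_unipotent hu hX h0 hBN n).mono (hfin n ?_)
      rw [Int.cast_natCast, abs_of_nonneg (Nat.cast_nonneg n)] at ha
      exact ha
    · rw [zpow_neg, ← inv_zpow, zpow_natCast, Units.val_pow_eq_pow_val]
      refine (bd_pow_unipotent hui hinv hN2 hBN2 n).mono (hfin n ?_)
      rw [Int.cast_neg, Int.cast_natCast, abs_neg, abs_of_nonneg (Nat.cast_nonneg n)] at ha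
      exact ha
  · have h0 := ho hk
    have huu : ‖u * u‖ = 1 := by rw [norm_mul, hu, one_mul]
    have huu' : ‖(u * u)⁻¹‖ = 1 := by rw [norm_inv, huu, inv_one]
    have hne : u * u ≠ 0 := mul_ne_zero hu0 hu0
    have h1 : ((X⁻¹ : (OpC m)ˣ) : OpC m) * ((X⁻¹ : (OpC m)ˣ) : OpC m) =
        (u * u)⁻¹ • (1 : OpC m) := by
      have h2 : ((X * X : (OpC m)ˣ) : OpC m) * ((u * u)⁻¹ • (1 : OpC m)) = 1 := by
        rw [Units.val_mul, h0, smul_mul_assoc, one_mul, smul_smul, mul_inv_cancel₀ hne, one_smul]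
      rw [← Units.val_mul, ← mul_inv_rev]
      exact Units.inv_eq_of_mul_eq_one_right h2
    refine ⟨1 + K + (1 + K'), by have := hK.1; have := hK'.1; linarith, ?_⟩
    intro a B hB ha
    rw [if_neg hk, pow_zero, mul_one]
    rcases Int.eq_nat_or_neg a with ⟨n, rfl | rfl⟩
    · rw [zpow_natCast, Units.val_pow_eq_pow_val]
      exact (bd_pow_involution huu h0 hK n).mono (by have := hK'.1; linarith)
    · rw [zpow_neg, ← inv_zpow, zpow_natCast, Units.val_pow_eq_pow_val]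
      exact (bd_pow_involution huu' h1 hK' n).mono (by have := hK.1; linarith)

theorem tE2 : S_E2 := by
  intro m r hr H hH hH' h
  have hTL : TL (dl A0) r.strands (fun j => UG m (r.first + j)) := by
    rw [dl_A0]
    exact TL_UG hr
  obtain ⟨H0, h1, h2⟩ := HH_unit hTL
  have hg1 : sg A0 (fun j => UG m (r.first + j)) = gz m 1 r := by
    unfold gz
    rw [zpow_one]
  have hg2 : sg A0⁻¹ (fun j => UG m (r.first + j)) = gz m (-1) r := by
    unfold gz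
    rw [zpow_neg, zpow_one]
  -- specialisation
  have hc1 : Comp (H : Op m) (H0 : OpC m) := by
    rw [hH, h1, hg1]
    exact Comp.HH (comp_gn 1 r) _
  have hc2 : Comp ((H⁻¹ : (Op m)ˣ) : Op m) ((H0⁻¹ : (OpC m)ˣ) : OpC m) := by
    rw [hH', h2, hg2]
    exact Comp.HH (comp_gn (-1) r) _
  -- bounds
  obtain ⟨K1, hK1⟩ : ∃ K, Bd (H0 : OpC m) K := by
    rw [h1]
    exact exBd_HH (exBd_sg _ _) _
  obtain ⟨K2, hK2⟩ : ∃ K, Bd ((H0⁻¹ : (OpC m)ˣ) : OpC m) K := by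
    rw [h2]
    exact exBd_HH (exBd_sg _ _) _
  obtain ⟨K3, hK3⟩ : ∃ K, Bd ((H0 ^ h : (OpC m)ˣ) : OpC m) K := by
    rcases Int.eq_nat_or_neg h with ⟨n, rfl | rfl⟩
    · rw [zpow_natCast, Units.val_pow_eq_pow_val]
      exact ⟨_, hK1.pow n⟩
    · rw [zpow_neg, ← inv_zpow, zpow_natCast, Units.val_pow_eq_pow_val]
      exact ⟨_, hK2.pow n⟩
  have hF : ((H0 * H0 : (OpC m)ˣ) : OpC m) = FF (sg A0 fun j => UG m (r.first + j)) r.strands := by
    rw [Units.val_mul, h1]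
    exact HH_sq hTL.br r.strands le_rfl
  obtain ⟨t1, t2⟩ := tZt (OpC m) A0 r.strands (fun j => UG m (r.first + j)) A0_pow4 hTL
  rw [← hF] at t1 t2
  have hu : ‖(A0 : ℂ) ^ (r.strands * (r.strands - 1))‖ = 1 := by rw [norm_pow, A0_norm, one_pow]
  have hB1 : Bd ((H0 * H0 : (OpC m)ˣ) : OpC m) (K1 * K1) := by
    rw [Units.val_mul]
    exact hK1.mul hK1
  have hB2 : Bd (((H0 * H0)⁻¹ : (OpC m)ˣ) : OpC m) (K2 * K2) := by
    rw [mul_inv_rev, Units.val_mul]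
    exact hK2.mul hK2
  obtain ⟨C, hC, hC'⟩ := bd_zpow hB1 hB2 hu t1 t2
  refine ⟨K3 * C, mul_nonneg hK3.1 hC, ?_⟩
  intro a B hB ha
  refine ⟨((H0 ^ (h + 2 * a) : (OpC m)ˣ) : OpC m), Comp.zpow hc1 hc2 _, ?_⟩
  have h3 : H0 ^ (h + 2 * a) = H0 ^ h * (H0 * H0) ^ a := by
    rw [zpow_add, zpow_mul, show (2 : ℤ) = ((2 : ℕ) : ℤ) from rfl, zpow_natCast, pow_two]
  rw [h3, Units.val_mul, mul_assoc]
  exact hK3.mul (hC' a B hB ha)

end MP_fc1011_gt.LM
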