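import Pool.Agent.Lib.MP_fc1011_gt.LM.E2

/-!
# MP_fc1011_gt, Theorem LIM: the values at `exp (π i / 4)` of the brackets of the diagrams of a parent
-/

set_option autoImplicit false

namespace MP_fc1011_gt.LM

open LaurentPolynomial MP_fc1011_gt.MV Finset

theorem br_nil {m : ℕ} (hm : 0 < m) (μ : Closure m) : br [] μ = delta ^ (cyc μ - 1) := by
  have h1 := delta_bracket_nil hm μ
  have h2 : 0 < cyc μ := loops_pos hm _ _ _
  have h3 : delta * br [] μ = delta * delta ^ (cyc μ - 1) := by
    rw [← pow_succ', Nat.sub_add_cancel h2]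
    exact h1
  exact mul_left_cancel₀ delta_ne_zero h3

theorem tEv : S_Ev := by
  intro m hm sites
  induction sites with
  | nil =>
    intro _
    refine ⟨1, zero_le_one, ?_⟩
    intro a B hB _ μ
    change ‖ev (br [] μ)‖ ≤ 1 * B ^ 0
    rw [br_nil hm, map_pow, ev_delta, pow_zero, mul_one]
    rcases Nat.eq_zero_or_pos (cyc μ - 1) with h0 | h0
    · rw [h0, pow_zero, norm_one]
    · rw [zero_pow (by omega), norm_zero]
      exact zero_le_one
  | cons s rs ih =>
    intro hv
    obtain ⟨r, b⟩ := s
    obtain ⟨K', hK', ih⟩ := ih fun r' h => hv r' (List.mem_cons_of_mem _ h)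
    have hr : r.first + r.strands ≤ m := hv (r, b) List.mem_cons_self
    obtain ⟨H, h1, h2, h3⟩ := tHz m r hr
    obtain ⟨K, hK, hE⟩ := tE2 m r hr H h1 h2 r.halfTwists
    refine ⟨K * K', mul_nonneg hK hK', ?_⟩
    intro a B hB ha μ
    have hrest := ih (fun i => a (i + 1)) B hB (fun i hi => ha (i + 1) (by
      rw [List.length_cons]
      omega))
    have key : ∀ (n : ℤ) (G : OpC m) (L : ℝ), Comp ((H ^ n : (Op m)ˣ) : Op m) G → Bd G L →
        ‖ev (br ({ r with halfTwists := n } :: ins rs fun i => a (i + 1)) μ)‖ ≤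
          L * (K' * B ^ evenMarked rs) := by
      intro n G L hG hL
      rw [h3 hm n, hG]
      exact hL.2 _ _ hrest μ
    cases b with
    | true =>
      obtain ⟨G, hG, hL⟩ := hE (a 0) B hB (ha 0 (by rw [List.length_cons]; omega))
      have h4 := key _ G _ hG hL
      unfold ins evenMarked
      rw [if_pos rfl]
      refine h4.trans (le_of_eq ?_)
      rw [pow_add]
      by_cases he : Even r.strands
      · rw [if_pos he, if_pos ⟨rfl, he⟩]
        ring
      · rw [if_neg he, if_neg (fun h => he h.2)]
        ring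
    | false =>
      obtain ⟨G, hG, hL⟩ := hE 0 1 le_rfl (by simp)
      rw [one_pow, mul_one] at hL
      have h4 := key _ G _ hG hL
      unfold ins evenMarked
      rw [if_neg (by decide), if_neg (by simp), zero_add]
      rw [mul_zero] at h4
      refine h4.trans (le_of_eq ?_)
      ring

end MP_fc1011_gt.LM
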