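import Pool.Agent.Lib.MP_fc1011_gt.LM.Spec

/-!
# MP_fc1011_gt, Theorem LIM: integral powers of an annihilated unit
-/

set_option autoImplicit false

namespace MP_fc1011_gt.LM

open LaurentPolynomial MP_fc1011_gt.MV Finset

section

variable {S E : Type} [CommRing S] [Ring E] [Algebra S E]

private theorem pow_act {F : E} {a : S} {M : E} (h : F * M = a • M) :
    ∀ n : ℕ, F ^ n * M = (a ^ n) • M
  | 0 => by rw [pow_zero, pow_zero, one_mul, one_smul]
  | n + 1 => by
    rw [pow_succ, mul_assoc, h, mul_smul_comm, pow_act h n, smul_smul, pow_succ, mul_comm a]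

private theorem zpow_act {F : Eˣ} {a : Sˣ} {M : E} (h : (F : E) * M = (a : S) • M) (n : ℤ) :
    ((F ^ n : Eˣ) : E) * M = ((a ^ n : Sˣ) : S) • M := by
  have h' : ((F⁻¹ : Eˣ) : E) * M = ((a⁻¹ : Sˣ) : S) • M := by
    have h1 : M = (a : S) • (((F⁻¹ : Eˣ) : E) * M) := by
      rw [← mul_smul_comm, ← h, ← mul_assoc, Units.inv_mul, one_mul]
    have h2 : ((a⁻¹ : Sˣ) : S) • M =
        ((a⁻¹ : Sˣ) : S) • ((a : S) • (((F⁻¹ : Eˣ) : E) * M)) := by rw [← h1]
    rw [h2, smul_smul, Units.inv_mul, one_smul]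
  rcases Int.eq_nat_or_neg n with ⟨k, rfl | rfl⟩
  · rw [zpow_natCast, zpow_natCast, Units.val_pow_eq_pow_val, Units.val_pow_eq_pow_val]
    exact pow_act h k
  · rw [zpow_neg, zpow_neg, ← inv_zpow, ← inv_zpow, zpow_natCast, zpow_natCast,
      Units.val_pow_eq_pow_val, Units.val_pow_eq_pow_val]
    exact pow_act h' k

end

theorem tSp : S_Sp := by
  intro S E _ _ _ _ F x h hx hF
  refine ⟨fun j => disc' (fun j => (x j : S)) h j •
    Polynomial.aeval (F : E) (lag (fun j => (x j : S)) h j), ?_⟩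
  intro n
  have h0 := lagrange_aeval (fun j => (x j : S)) h hx (F : E) hF 0
  have hact : ∀ j ∈ range (h + 1), (F : E) * (disc' (fun j => (x j : S)) h j •
      Polynomial.aeval (F : E) (lag (fun j => (x j : S)) h j)) =
      (x j : S) • (disc' (fun j => (x j : S)) h j •
        Polynomial.aeval (F : E) (lag (fun j => (x j : S)) h j)) := by
    intro j hj
    have h1 : (Polynomial.X - Polynomial.C (x j : S)) * lag (fun j => (x j : S)) h j =
        ∏ j ∈ range (h + 1), (Polynomial.X - Polynomial.C (x j : S)) :=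
      Finset.mul_prod_erase (range (h + 1)) (fun l => Polynomial.X - Polynomial.C (x l : S)) hj
    have h2 := congrArg (Polynomial.aeval (F : E)) h1
    rw [hF, map_mul, map_sub, Polynomial.aeval_X, Polynomial.aeval_C, sub_mul, sub_eq_zero,
      ← Algebra.smul_def] at h2
    rw [mul_smul_comm, h2, smul_smul, smul_smul, mul_comm]
  calc disc (fun j => (x j : S)) h • ((F ^ n : Eˣ) : E)
      = ((F ^ n : Eˣ) : E) * (disc (fun j => (x j : S)) h • (F : E) ^ 0) := by
        rw [pow_zero, mul_smul_comm, mul_one]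
    _ = ∑ j ∈ range (h + 1), ((F ^ n : Eˣ) : E) * (disc' (fun j => (x j : S)) h j •
          Polynomial.aeval (F : E) (lag (fun j => (x j : S)) h j)) := by
        rw [h0, Finset.mul_sum]
        refine Finset.sum_congr rfl fun j _ => ?_
        rw [pow_zero, one_mul]
    _ = _ := Finset.sum_congr rfl fun j hj => zpow_act (hact j hj) n

end MP_fc1011_gt.LM
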