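import Pool.Agent.Lib.MP_fc1011_gt.LM.Hz
import Pool.Agent.Lib.MP_fc1011_gt.LM.Sp

/-!
# MP_fc1011_gt, Theorem LIM: the bracket of all diagrams of a parent at once
-/

set_option autoImplicit false

namespace MP_fc1011_gt.LM

open LaurentPolynomial MP_fc1011_gt.MV Finset

private theorem ins_cons (r : Region) (b : Bool) (rs : List (Region × Bool)) (a : ℕ → ℤ) :
    ins ((r, b) :: rs) a =
      { r with halfTwists := r.halfTwists + if b = true then 2 * a 0 else 0 } ::
        ins rs fun i => a (i + 1) := rfl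

/-- Add a new first exponent. -/
private def cns (x : ℤ) (e : ℕ → ℤ) : ℕ → ℤ
  | 0 => x
  | i + 1 => e i

private theorem sum_cns (x : ℤ) (e a : ℕ → ℤ) (n : ℕ) :
    ∑ i ∈ range (n + 1), cns x e i * a i = x * a 0 + ∑ i ∈ range n, e i * a (i + 1) := by
  rw [Finset.sum_range_succ', add_comm]
  rfl

private theorem disc_ne_zero {x : ℕ → ℤ[T;T⁻¹]} {h : ℕ}
    (hx : ∀ i ∈ range (h + 1), ∀ j ∈ range (h + 1), x i = x j → i = j) : disc x h ≠ 0 := by
  unfold disc
  rw [Finset.prod_ne_zero_iff]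
  intro j hj
  unfold dif
  rw [Finset.prod_ne_zero_iff]
  intro l hl h0
  rw [Finset.mem_erase] at hl
  exact hl.1 (hx j hj l hl.2 (sub_eq_zero.mp h0)).symm

/-- All powers of the full twist. -/
private theorem twist_powers {m : ℕ} (r : Region) (hr : r.first + r.strands ≤ m) {H : (Op m)ˣ}
    (hH : (H : Op m) = HH (gn m 1 r) r.strands) :
    ∃ (D : ℤ[T;T⁻¹]) (M : ℕ → Op m), D ≠ 0 ∧ ∀ n : ℤ,
      D • (((H * H) ^ n : (Op m)ˣ) : Op m) =
        ∑ j ∈ range (r.strands / 2 + 1), (T (ex 1 r.strands j * n) : ℤ[T;T⁻¹]) • M j := by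
  have hTL : TL (dl (tu 1)) r.strands (fun j => UU m (r.first + j)) := by
    rw [dl_tu (Or.inl rfl)]
    exact TL_UU hr
  have hF : ((H * H : (Op m)ˣ) : Op m) = FF (gn m 1 r) r.strands := by
    rw [Units.val_mul, hH]
    exact HH_sq hTL.br r.strands le_rfl
  have hann := aeval_ann (tu 1) r.strands _ hTL
  have hinj : ∀ i ∈ range (r.strands / 2 + 1), ∀ j ∈ range (r.strands / 2 + 1),
      (tu (ex 1 r.strands i) : ℤ[T;T⁻¹]) = tu (ex 1 r.strands j) → i = j := by
    intro i hi j hj h
    rw [Finset.mem_range] at hi hj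
    rw [tu_val, tu_val] at h
    exact ex_inj (Or.inl rfl) (by omega) (by omega) (T_inj h)
  have hann2 : Polynomial.aeval ((H * H : (Op m)ˣ) : Op m)
      (∏ j ∈ range (r.strands / 2 + 1),
        (Polynomial.X - Polynomial.C ((tu (ex 1 r.strands j) : ℤ[T;T⁻¹]ˣ) : ℤ[T;T⁻¹]))) = 0 := by
    rw [hF]
    unfold ann at hann
    refine Eq.trans ?_ hann
    unfold gn
    refine congrArg (Polynomial.aeval _) ?_
    refine Finset.prod_congr rfl fun j _ => ?_
    rw [lam_tu, tu_val]
  obtain ⟨M, hM⟩ := tSp ℤ[T;T⁻¹] (Op m) (H * H) (fun j => tu (ex 1 r.strands j))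
    (r.strands / 2) hinj hann2
  refine ⟨_, M, disc_ne_zero hinj, fun n => ?_⟩
  rw [hM n]
  refine Finset.sum_congr rfl fun j _ => ?_
  rw [tu_zpow]

theorem tEx : S_Ex := by
  intro m hm sites
  induction sites with
  | nil =>
    intro _
    refine ⟨Unit, inferInstance, 1, fun _ _ => 0, fun _ => br [], one_ne_zero, ?_⟩
    intro a μ
    change 1 * br [] μ = _
    simp
  | cons s rs ih =>
    intro hv
    obtain ⟨r, b⟩ := s
    obtain ⟨ι, _, D, e, P, hD, hE⟩ := ih fun r' h => hv r' (List.mem_cons_of_mem _ h)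
    have hr : r.first + r.strands ≤ m := hv (r, b) List.mem_cons_self
    obtain ⟨H, h1, h2, h3⟩ := tHz m r hr
    -- the old formula, for functions
    have hfun : ∀ a : ℕ → ℤ, D • (br (ins rs a) : Closure m → ℤ[T;T⁻¹]) =
        ∑ c, (T (∑ i ∈ range rs.length, e c i * a i) : ℤ[T;T⁻¹]) • P c := by
      intro a
      funext μ
      rw [Finset.sum_apply]
      exact hE a μ
    cases b with
    | false =>
      refine ⟨ι, inferInstance, D, fun c => cns 0 (e c),
        fun c => ((H ^ r.halfTwists : (Op m)ˣ) : Op m) (P c), hD, ?_⟩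
      intro a μ
      have h4 : (br (ins ((r, false) :: rs) a) : Closure m → ℤ[T;T⁻¹]) =
          ((H ^ r.halfTwists : (Op m)ˣ) : Op m) (br (ins rs fun i => a (i + 1))) := by
        rw [ins_cons, if_neg (by decide), add_zero]
        exact h3 hm _ _
      have h5 : D • (br (ins ((r, false) :: rs) a) : Closure m → ℤ[T;T⁻¹]) =
          ∑ c, (T (∑ i ∈ range (rs.length + 1), cns 0 (e c) i * a i) : ℤ[T;T⁻¹]) •
            ((H ^ r.halfTwists : (Op m)ˣ) : Op m) (P c) := by
        rw [h4, ← map_smul, hfun, map_sum]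
        refine Finset.sum_congr rfl fun c _ => ?_
        rw [map_smul, sum_cns, zero_mul, zero_add]
      have h6 := congrFun h5 μ
      rw [Finset.sum_apply] at h6
      exact h6
    | true =>
      obtain ⟨D₁, M, hD₁, hM⟩ := twist_powers r hr h1
      refine ⟨Fin (r.strands / 2 + 1) × ι, inferInstance, D₁ * D,
        fun c => cns (ex 1 r.strands c.1) (e c.2),
        fun c => (((H ^ r.halfTwists : (Op m)ˣ) : Op m) * M c.1) (P c.2), mul_ne_zero hD₁ hD, ?_⟩
      intro a μ
      have h4 : (br (ins ((r, true) :: rs) a) : Closure m → ℤ[T;T⁻¹]) =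
          (((H ^ r.halfTwists : (Op m)ˣ) : Op m) * (((H * H) ^ a 0 : (Op m)ˣ) : Op m))
            (br (ins rs fun i => a (i + 1))) := by
        rw [ins_cons, if_pos rfl, h3 hm _ _]
        have h7 : H ^ (r.halfTwists + 2 * a 0) = H ^ r.halfTwists * (H * H) ^ a 0 := by
          rw [zpow_add, zpow_mul, show (2 : ℤ) = ((2 : ℕ) : ℤ) from rfl, zpow_natCast, pow_two]
        rw [h7, Units.val_mul]
      have h5 : (D₁ * D) • (br (ins ((r, true) :: rs) a) : Closure m → ℤ[T;T⁻¹]) =
          ∑ c : Fin (r.strands / 2 + 1) × ι,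
            (T (∑ i ∈ range (rs.length + 1), cns (ex 1 r.strands c.1) (e c.2) i * a i) :
              ℤ[T;T⁻¹]) •
            (((H ^ r.halfTwists : (Op m)ˣ) : Op m) * M c.1) (P c.2) := by
        have h8 : (D₁ * D) • (br (ins ((r, true) :: rs) a) : Closure m → ℤ[T;T⁻¹]) =
            (((H ^ r.halfTwists : (Op m)ˣ) : Op m) *
              (D₁ • (((H * H) ^ a 0 : (Op m)ˣ) : Op m)))
              (D • (br (ins rs fun i => a (i + 1)) : Closure m → ℤ[T;T⁻¹])) := by
          rw [h4, map_smul, mul_smul_comm, LinearMap.smul_apply, smul_smul, mul_comm D D₁]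
        rw [h8, hM, hfun, map_sum, Fintype.sum_prod_type_right]
        refine Finset.sum_congr rfl fun c _ => ?_
        rw [map_smul, Finset.mul_sum, LinearMap.sum_apply, Finset.smul_sum, Finset.sum_range]
        refine Finset.sum_congr rfl fun j _ => ?_
        rw [mul_smul_comm, LinearMap.smul_apply, smul_smul, sum_cns, T_add, mul_comm]
      have h6 := congrFun h5 μ
      rw [Finset.sum_apply] at h6
      exact h6

end MP_fc1011_gt.LM
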