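import Pool.Agent.Lib.MP_fc1011_gt.LM.Spec

/-!
# MP_fc1011_gt, Theorem LIM: the half twist is a unit
-/

set_option autoImplicit false

namespace MP_fc1011_gt.LM

open LaurentPolynomial MP_fc1011_gt.MV Finset

section words

variable {E : Type*} [Monoid E]

theorem RR_mul_LL {s s' : ℕ → E} : ∀ j, (∀ i, i < j → s i * s' i = 1) → RR s j * LL s' j = 1
  | 0, _ => one_mul 1
  | j + 1, h => by
    have ih := RR_mul_LL j fun i hi => h i (Nat.lt_succ_of_lt hi)
    change s j * RR s j * (LL s' j * s' j) = 1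
    calc s j * RR s j * (LL s' j * s' j) = s j * (RR s j * LL s' j) * s' j := by
          simp only [mul_assoc]
      _ = 1 := by rw [ih, mul_one, h j (Nat.lt_succ_self j)]

theorem HH_mul_HH {k : ℕ} {s s' : ℕ → E} (hs' : Br k s')
    (h : ∀ j, j + 1 < k → s j * s' j = 1) : ∀ j, j ≤ k → HH s j * HH s' j = 1
  | 0, _ => one_mul 1
  | j + 1, hj => by
    have ih := HH_mul_HH hs' h j (by omega)
    have h1 := RR_mul_LL (s := s) (s' := s') j fun i hi => h i (by omega)
    rw [HH_eq hs' j (by omega)]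
    change HH s j * RR s j * (LL s' j * HH s' j) = 1
    calc HH s j * RR s j * (LL s' j * HH s' j) = HH s j * (RR s j * LL s' j) * HH s' j := by
          simp only [mul_assoc]
      _ = 1 := by rw [h1, mul_one, ih]

end words

section algebra

variable {S E : Type*} [CommRing S] [Ring E] [Algebra S E]

theorem dl_inv (A : Sˣ) : dl A⁻¹ = dl A := by
  unfold dl
  rw [inv_inv]
  ring

theorem sg_mul_inv (A : Sˣ) (e : ℕ → E) (j : ℕ) (h : e j * e j = dl A • e j) :
    sg A e j * sg A⁻¹ e j = 1 := by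
  have hA : (A : S) * ((A⁻¹ : Sˣ) : S) = 1 := A.mul_inv
  obtain ⟨a, ha⟩ : ∃ a : S, a = (A : S) := ⟨_, rfl⟩
  obtain ⟨b, hb⟩ : ∃ b : S, b = ((A⁻¹ : Sˣ) : S) := ⟨_, rfl⟩
  obtain ⟨u, hu⟩ : ∃ u : E, u = e j := ⟨_, rfl⟩
  have hd : dl A = -a ^ 2 - b ^ 2 := by rw [ha, hb]; rfl
  unfold sg
  rw [inv_inv, ← ha, ← hb, ← hu]
  rw [← hu, hd] at h
  rw [← ha, ← hb] at hA
  have h1 : (a • (1 : E) + b • u) * (b • (1 : E) + a • u) =
      (a * b) • (1 : E) + (a * a) • u + (b * b) • u + (a * b) • (u * u) := by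
    simp only [mul_add, add_mul, smul_mul_assoc, mul_smul_comm, smul_smul, mul_one, one_mul,
      smul_add]
    module
  rw [h1, h, hA, one_smul, one_smul]
  module

theorem sg_inv_mul (A : Sˣ) (e : ℕ → E) (j : ℕ) (h : e j * e j = dl A • e j) :
    sg A⁻¹ e j * sg A e j = 1 := by
  have h1 := sg_mul_inv A⁻¹ e j (by rw [dl_inv, h])
  rwa [inv_inv] at h1

/-- The half twist is a unit. -/
theorem HH_unit {A : Sˣ} {k : ℕ} {e : ℕ → E} (h : TL (dl A) k e) :
    ∃ H : Eˣ, (H : E) = HH (sg A e) k ∧ ((H⁻¹ : Eˣ) : E) = HH (sg A⁻¹ e) k := by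
  have h' : TL (dl A⁻¹) k e := by
    rw [dl_inv]
    exact h
  refine ⟨⟨HH (sg A e) k, HH (sg A⁻¹ e) k, ?_, ?_⟩, rfl, rfl⟩
  · exact HH_mul_HH h'.br (fun j hj => sg_mul_inv A e j (h.sq j hj)) k le_rfl
  · exact HH_mul_HH h.br (fun j hj => sg_inv_mul A e j (h.sq j hj)) k le_rfl

end algebra

theorem delta_ne_zero : delta ≠ 0 := by
  intro h
  have h1 := congrArg (fun p : ℤ[T;T⁻¹] => p.coeff 2) h
  unfold delta at h1
  simp only [AddMonoidAlgebra.coeff_sub, AddMonoidAlgebra.coeff_neg, T,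
    AddMonoidAlgebra.coeff_single, Finsupp.sub_apply, Finsupp.neg_apply, Finsupp.single_apply,
    AddMonoidAlgebra.coeff_zero, Finsupp.zero_apply] at h1
  norm_num at h1

theorem tu_neg (a : ℤ) : tu (-a) = (tu a)⁻¹ := Units.ext rfl

theorem val_eq {m : ℕ} (rs : List Region) :
    (val (rs.flatMap Region.crossings) : Closure m → ℤ[T;T⁻¹]) = delta • br rs := rfl

theorem tHz : S_Hz := by
  intro m r hr
  have hTL : TL (dl (tu 1)) r.strands (fun j => UU m (r.first + j)) := by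
    rw [dl_tu (Or.inl rfl)]
    exact TL_UU hr
  obtain ⟨H, h1, h2⟩ := HH_unit hTL
  rw [← tu_neg] at h2
  refine ⟨H, h1, h2, ?_⟩
  intro hm h rest
  -- the operator
  have key : (HH (gen m { r with halfTwists := h }) r.strands ^ h.natAbs : Op m) =
      ((H ^ h : (Op m)ˣ) : Op m) := by
    unfold gen
    by_cases h0 : 0 < h
    · obtain ⟨n, hn⟩ : ∃ n : ℕ, h = n := ⟨h.toNat, by omega⟩
      subst hn
      rw [Int.natAbs_natCast, zpow_natCast, Units.val_pow_eq_pow_val, h1]
      simp only [h0, decide_true]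
      rfl
    · obtain ⟨n, hn⟩ : ∃ n : ℕ, h = -(n : ℤ) := ⟨(-h).toNat, by omega⟩
      subst hn
      rw [Int.natAbs_neg, Int.natAbs_natCast, zpow_neg, ← inv_zpow, zpow_natCast,
        Units.val_pow_eq_pow_val, h2]
      simp only [h0, decide_false]
      rfl
  have h3 := val_region hm { r with halfTwists := h } hr (rest.flatMap Region.crossings)
  rw [← List.flatMap_cons, val_eq, val_eq, map_smul] at h3
  change delta • _ = delta • ((HH (gen m { r with halfTwists := h }) r.strands ^ h.natAbs : Op m)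
    (br rest)) at h3
  rw [key] at h3
  funext μ
  exact mul_left_cancel₀ delta_ne_zero (congrFun h3 μ)

end MP_fc1011_gt.LM
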