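import Pool.Agent.Lib.MP_fc1011_gt.LM.Spec

/-!
# MP_fc1011_gt, Theorem LIM: small integral solutions
-/

set_option autoImplicit false

namespace MP_fc1011_gt.LM

open LaurentPolynomial MP_fc1011_gt.MV Finset

namespace LaAux

/-- The rational coordinates of an element of the range of `Λ` are bounded by its entries. -/
theorem left_inv_bound {ι : Type} [Fintype ι] {l : ℕ} (g : (ι → ℚ) →ₗ[ℚ] (Fin l → ℚ)) :
    ∃ K : ℕ, ∀ (y : ι → ℚ) (B : ℚ), (∀ c, |y c| ≤ B) → 0 ≤ B → ∀ j, |g y j| ≤ K * B := by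
  classical
  refine ⟨⌈∑ j, ∑ c, |g (Pi.single c 1) j|⌉₊, fun y B hy hB j => ?_⟩
  have h0 : y = ∑ c, y c • (Pi.single c (1 : ℚ) : ι → ℚ) := by
    funext d
    simp [Finset.sum_apply, Pi.single_apply]
  have h1 : g y = ∑ c, y c • g (Pi.single c 1) := by
    calc g y = g (∑ c, y c • (Pi.single c (1 : ℚ) : ι → ℚ)) := congrArg g h0
      _ = ∑ c, y c • g (Pi.single c 1) := by
          rw [map_sum]
          exact sum_congr rfl (fun c _ => map_smul g _ _)
  have h2 : g y j = ∑ c, y c * g (Pi.single c 1) j := by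
    rw [h1, Finset.sum_apply]
    rfl
  rw [h2]
  calc |∑ c, y c * g (Pi.single c 1) j| ≤ ∑ c, |y c * g (Pi.single c 1) j| :=
        abs_sum_le_sum_abs _ _
    _ ≤ ∑ c, |g (Pi.single c 1) j| * B := by
        refine sum_le_sum (fun c _ => ?_)
        rw [abs_mul, mul_comm]
        exact mul_le_mul_of_nonneg_left (hy c) (abs_nonneg _)
    _ = (∑ c, |g (Pi.single c 1) j|) * B := (sum_mul _ _ _).symm
    _ ≤ (⌈∑ j, ∑ c, |g (Pi.single c 1) j|⌉₊ : ℚ) * B := by
        apply mul_le_mul_of_nonneg_right _ hB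
        refine le_trans ?_ (Nat.le_ceil _)
        exact single_le_sum (f := fun j => ∑ c, |g (Pi.single c 1) j|)
          (fun j _ => sum_nonneg (fun c _ => abs_nonneg _)) (mem_univ j)

end LaAux

theorem tLa : S_La := by
  classical
  intro ι _ n L
  let Λ : (Fin n → ℤ) →ₗ[ℤ] (ι → ℤ) :=
    LinearMap.pi (fun c => ∑ i : Fin n, (L c i) • LinearMap.proj i)
  have hΛ : ∀ x c, Λ x c = ∑ i : Fin n, L c i * x i := by
    intro x c
    simp [Λ]
  let M := LinearMap.range Λ
  let b := Module.finBasis ℤ M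
  have hx : ∀ j, ∃ x, Λ x = (b j : ι → ℤ) := fun j => (b j).2
  choose x hx using hx
  let ca : (ι → ℤ) →ₗ[ℤ] (ι → ℚ) :=
    LinearMap.pi (fun c => (Int.castAddHom ℚ).toIntLinearMap ∘ₗ LinearMap.proj c)
  have hca : ∀ y c, ca y c = (y c : ℚ) := fun y c => rfl
  have hinj : Function.Injective ca := by
    intro y z hyz
    funext c
    have := congrFun hyz c
    rw [hca, hca] at this
    exact_mod_cast this
  let v : Fin (Module.finrank ℤ M) → (ι → ℚ) := fun j => ca (b j)
  have hv : LinearIndependent ℤ v := by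
    have h1 : LinearIndependent ℤ (fun j => (M.subtype (b j))) :=
      b.linearIndependent.map' M.subtype (Submodule.ker_subtype M)
    exact h1.map' ca (LinearMap.ker_eq_bot.2 hinj)
  have hvQ : LinearIndependent ℚ v := (LinearIndependent.iff_fractionRing ℤ ℚ).1 hv
  let φ : (Fin (Module.finrank ℤ M) → ℚ) →ₗ[ℚ] (ι → ℚ) := Fintype.linearCombination ℚ v
  have hφ : LinearMap.ker φ = ⊥ := by
    rw [LinearMap.ker_eq_bot]
    exact linearIndependent_iff_injective_fintypeLinearCombination.1 hvQ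
  obtain ⟨g, hg⟩ := φ.exists_leftInverse_of_injective hφ
  obtain ⟨K, hK⟩ := LaAux.left_inv_bound g
  let X : ℕ := ∑ j, ∑ i, (x j i).natAbs
  refine ⟨K * X, fun a B hB => ?_⟩
  -- the element of the range
  let y : M := ⟨Λ (fun i => a i), ⟨_, rfl⟩⟩
  have hy : ∀ c, (y : ι → ℤ) c = ∑ i ∈ range n, L c i * a i := by
    intro c
    show Λ (fun i => a i) c = _
    rw [hΛ, Finset.sum_range]
  let r := b.repr y
  have hr : (y : ι → ℤ) = ∑ j, r j • (b j : ι → ℤ) := by
    have h1 : ((∑ j, r j • b j : M) : ι → ℤ) = y :=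
      congrArg (fun z : M => (z : ι → ℤ)) (b.sum_repr y)
    rw [← h1, Submodule.coe_sum]
    exact sum_congr rfl (fun j _ => rfl)
  have hrQ : ca y = φ (fun j => (r j : ℚ)) := by
    rw [hr, map_sum]
    simp only [φ, Fintype.linearCombination_apply, v]
    refine sum_congr rfl (fun j _ => ?_)
    rw [map_smul]
    funext c
    simp
  have hrb : ∀ j, |(r j : ℚ)| ≤ K * B := by
    intro j
    have h1 : g (ca y) = fun j => (r j : ℚ) := by
      rw [hrQ]
      exact LinearMap.congr_fun hg _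
    have h2 := hK (ca y) B (fun c => by
      rw [hca, hy]
      have := hB c
      exact_mod_cast this) (Nat.cast_nonneg _) j
    rw [h1] at h2
    exact h2
  have hrb' : ∀ j, |r j| ≤ K * B := by
    intro j
    exact_mod_cast hrb j
  refine ⟨fun i => if h : i < n then ∑ j, r j * x j ⟨i, h⟩ else 0, ?_, ?_⟩
  · intro c
    rw [← hy c, hr, Finset.sum_range]
    have h1 : ∀ i : Fin n, L c i * (if h : (i : ℕ) < n then ∑ j, r j * x j ⟨i, h⟩ else 0) =
        ∑ j, r j * (L c i * x j i) := by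
      intro i
      rw [dif_pos i.2, mul_sum]
      exact sum_congr rfl (fun j _ => by simp only [Fin.eta]; ring)
    rw [sum_congr rfl (fun i _ => h1 i), sum_comm, Finset.sum_apply]
    refine sum_congr rfl (fun j _ => ?_)
    rw [← mul_sum, ← hΛ, hx]
    rfl
  · intro i hi
    show |if h : i < n then ∑ j, r j * x j ⟨i, h⟩ else 0| ≤ _
    rw [dif_pos hi]
    calc |∑ j, r j * x j ⟨i, hi⟩| ≤ ∑ j, |r j * x j ⟨i, hi⟩| := abs_sum_le_sum_abs _ _
      _ ≤ ∑ j, (K * B : ℤ) * (∑ i, ((x j i).natAbs : ℤ)) := by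
          refine sum_le_sum (fun j _ => ?_)
          rw [abs_mul]
          refine mul_le_mul (hrb' j) ?_ (abs_nonneg _) (by positivity)
          rw [Int.abs_eq_natAbs]
          exact single_le_sum (f := fun i => ((x j i).natAbs : ℤ))
            (fun i _ => Int.natCast_nonneg _) (mem_univ (⟨i, hi⟩ : Fin n))
      _ = ((K * X : ℕ) : ℤ) * B := by
          rw [← mul_sum]
          simp only [X]
          push_cast
          ring

end MP_fc1011_gt.LM
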