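import Pool.Agent.Lib.MP_fc1011_gt.LM.E1

/-!
# MP_fc1011_gt, Theorem LIM: from the Jones polynomial to the bracket
-/

set_option autoImplicit false

namespace MP_fc1011_gt.LM

open LaurentPolynomial MP_fc1011_gt.MV Finset

theorem atNegOne_add (p q : ℤ[T;T⁻¹]) : atNegOne (p + q) = atNegOne p + atNegOne q := by
  unfold atNegOne
  rw [AddMonoidAlgebra.coeff_add]
  exact Finsupp.sum_add_index' (fun _ => by ring) (fun _ _ _ => by ring)

theorem atNegOne_C_mul_T (a n : ℤ) : atNegOne (C a * T n) = a * (Int.negOnePow n : ℤ) := by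
  unfold atNegOne
  rw [← single_eq_C_mul_T, AddMonoidAlgebra.coeff_single]
  exact Finsupp.sum_single_index (by ring)

theorem ev_C (a : ℤ) : ev (C a) = (a : ℂ) := by
  unfold ev
  rw [LaurentPolynomial.eval₂_C]
  rfl

theorem A0_zpow4 (n : ℤ) : ((A0 ^ (-4 * n) : ℂˣ) : ℂ) = ((Int.negOnePow n : ℤ) : ℂ) := by
  have h4 : A0 ^ (4 : ℤ) = -1 := by
    apply Units.ext
    rw [show (4 : ℤ) = ((4 : ℕ) : ℤ) from rfl, zpow_natCast, Units.val_pow_eq_pow_val, A0_pow4]
    rfl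
  rw [show (-4 * n : ℤ) = 4 * (-n) by ring, zpow_mul, h4, Units.val_zpow_eq_zpow_val]
  rcases Int.even_or_odd n with h | h
  · rw [Int.negOnePow_even n h]
    have h1 : ((-1 : ℂ)) ^ (-n) = 1 := h.neg.neg_one_zpow
    simpa using h1
  · rw [Int.negOnePow_odd n h]
    have h1 : ((-1 : ℂ)) ^ (-n) = -1 := h.neg.neg_one_zpow
    simpa using h1

theorem ev_toA (V : ℤ[T;T⁻¹]) : ev (TwistDiagram.toA V) = ((atNegOne V : ℤ) : ℂ) := by
  induction V using LaurentPolynomial.induction_on' with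
  | add p q hp hq => rw [map_add, map_add, hp, hq, atNegOne_add, Int.cast_add]
  | C_mul_T n a =>
    have hC : TwistDiagram.toA (C a) = C a := by
      have h1 : (C a : ℤ[T;T⁻¹]) = ((a : ℤ) : ℤ[T;T⁻¹]) := by simp
      rw [h1, map_intCast]
    rw [map_mul, map_mul, toA_T, hC, ev_C, ev_T, A0_zpow4, atNegOne_C_mul_T, Int.cast_mul]

theorem coeff_C_mul_T_mul (a n : ℤ) (W : ℤ[T;T⁻¹]) (j : ℤ) :
    ((C a * T n) * W).coeff j = a * W.coeff (j - n) := by
  rw [← single_eq_C_mul_T]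
  exact AddMonoidAlgebra.coeff_single_mul_eq_mul_coeff (x := W) (m := n) (m₁ := j)
    (r := a) (j - n) (fun b _ => by constructor <;> intro h <;> omega)

theorem coeff_toA (V : ℤ[T;T⁻¹]) (j : ℤ) (h : (TwistDiagram.toA V).coeff j ≠ 0) :
    ∃ i, V.coeff i ≠ 0 ∧ j = -4 * i := by
  have h1 : (TwistDiagram.toA V).coeff = Finsupp.mapDomain (fun i : ℤ => -4 * i) V.coeff := rfl
  have h2 : j ∈ (Finsupp.mapDomain (fun i : ℤ => -4 * i) V.coeff).support := by
    rw [← h1, Finsupp.mem_support_iff]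
    exact h
  obtain ⟨i, hi, hj⟩ := Finset.mem_image.mp (Finsupp.mapDomain_support h2)
  exact ⟨i, Finsupp.mem_support_iff.mp hi, hj.symm⟩

theorem tUn : S_Un := by
  intro V W w h
  obtain ⟨ε, hε⟩ : ∃ ε : ℤ, ε = (Int.negOnePow w : ℤ) := ⟨_, rfl⟩
  have hεε : ε * ε = 1 := by
    rw [hε]
    rcases Int.units_eq_one_or (Int.negOnePow w) with h1 | h1
    · rw [h1]; rfl
    · rw [h1]; rfl
  rw [← hε] at h
  have hW : W = (C ε * T (3 * w)) * TwistDiagram.toA V := by
    have h1 : (C ε * C ε : ℤ[T;T⁻¹]) = 1 := by rw [← map_mul, hεε, map_one]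
    have h2 : (T (3 * w) * T (-3 * w) : ℤ[T;T⁻¹]) = 1 := by
      rw [← T_add, show 3 * w + -3 * w = 0 by ring, T_zero]
    rw [h]
    linear_combination (-(T (3 * w) * T (-3 * w) : ℤ[T;T⁻¹]) * W) * h1 - W * h2
  constructor
  · have hsup : ∀ i, W.coeff i ≠ 0 → ∃ v, V.coeff v ≠ 0 ∧ i = 3 * w - 4 * v := by
      intro i hi
      rw [hW, coeff_C_mul_T_mul] at hi
      obtain ⟨v, hv, hv2⟩ := coeff_toA V (i - 3 * w) (right_ne_zero_of_mul hi)
      exact ⟨v, hv, by omega⟩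
    unfold span
    apply Finset.sup_le
    intro p hp
    rw [Finset.mem_product, Finsupp.mem_support_iff, Finsupp.mem_support_iff] at hp
    obtain ⟨v1, h1, h2⟩ := hsup _ hp.1
    obtain ⟨v2, h3, h4⟩ := hsup _ hp.2
    have h5 : (v2 - v1).toNat ≤ (V.coeff.support ×ˢ V.coeff.support).sup
        fun p => (p.1 - p.2).toNat :=
      Finset.le_sup (f := fun p : ℤ × ℤ => (p.1 - p.2).toNat)
        (Finset.mem_product.mpr ⟨Finsupp.mem_support_iff.mpr h3, Finsupp.mem_support_iff.mpr h1⟩ :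
          (v2, v1) ∈ V.coeff.support ×ˢ V.coeff.support)
    have h6 := Int.self_le_toNat (v2 - v1)
    omega
  · rw [hW, map_mul, map_mul, ev_toA, ev_C, ev_T, norm_mul, norm_mul, Units.val_zpow_eq_zpow_val,
      norm_zpow, A0_norm, one_zpow, mul_one]
    have h1 : ‖(ε : ℂ)‖ = 1 := by
      rw [hε]
      rcases Int.units_eq_one_or (Int.negOnePow w) with h2 | h2
      · rw [h2]; simp
      · rw [h2]; simp
    rw [h1, one_mul]
    exact Complex.norm_intCast _

end MP_fc1011_gt.LM
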