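import Pool.Agent.Lib.MP_fc1011_gt.LM.Ev
import Pool.Agent.Lib.MP_fc1011_gt.LM.Un

/-!
# MP_fc1011_gt, Theorem LIM: assembly
-/

set_option autoImplicit false

namespace MP_fc1011_gt.LM

open LaurentPolynomial MP_fc1011_gt.MV Finset

theorem quotient_bound {V : ℤ[T;T⁻¹]} {C E : ℕ} (hC : 1 ≤ C) (hs : 2 ≤ span V)
    (h : (atNegOne V).natAbs ≤ C * span V ^ E) :
    quotient V ≤ E + Real.log C / Real.log (span V) := by
  unfold quotient
  obtain ⟨s, hsdef⟩ : ∃ s, s = span V := ⟨_, rfl⟩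
  rw [← hsdef] at hs h ⊢
  have hlog : 0 < Real.log s := Real.log_pos (by exact_mod_cast (by omega : 1 < s))
  have hC1 : (1 : ℝ) ≤ C := by exact_mod_cast hC
  have hC0 : 0 ≤ Real.log C := Real.log_nonneg hC1
  have hE : (E : ℝ) + Real.log C / Real.log s = (E * Real.log s + Real.log C) / Real.log s := by
    field_simp
  rw [hE]
  refine div_le_div_of_nonneg_right ?_ hlog.le
  by_cases h0 : atNegOne V = 0
  · rw [h0]
    simp only [Int.cast_zero, abs_zero, Real.log_zero]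
    positivity
  · have h3 : |(atNegOne V : ℝ)| ≤ C * (s : ℝ) ^ E := by
      have : ((atNegOne V).natAbs : ℝ) ≤ ((C * s ^ E : ℕ) : ℝ) := by exact_mod_cast h
      rw [Nat.cast_natAbs, Int.cast_abs] at this
      push_cast at this
      exact this
    have h4 : 0 < |(atNegOne V : ℝ)| := abs_pos.mpr (by exact_mod_cast h0)
    have hs0 : (0 : ℝ) < s := by exact_mod_cast (by omega : 0 < s)
    calc Real.log |(atNegOne V : ℝ)| ≤ Real.log (C * (s : ℝ) ^ E) := Real.log_le_log h4 h3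
      _ = E * Real.log s + Real.log C := by
        rw [Real.log_mul (by positivity) (by positivity), Real.log_pow]
        ring

theorem main_of (hEx : S_Ex) (hCu : S_Cu) : S_Main := by
  intro m hm P
  obtain ⟨ι, _, D, e, Pc, hD, hE⟩ := hEx m hm P.sites P.valid
  obtain ⟨C₁, hC⟩ := hCu ι P.sites.length e (fun c => Pc c P.closure) D hD
  obtain ⟨K, hK, hEv⟩ := tEv m hm P.sites P.valid
  obtain ⟨N, hN⟩ : ∃ N, N = evenMarked P.sites := ⟨_, rfl⟩
  obtain ⟨C, hCdef⟩ : ∃ C : ℕ, C = ⌈K * (5 * ((C₁ : ℝ) + 1)) ^ N⌉₊ + 1 := ⟨_, rfl⟩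
  have hC1 : 1 ≤ C := by rw [hCdef]; omega
  have hCge : K * (5 * ((C₁ : ℝ) + 1)) ^ N ≤ C := by
    refine (Nat.le_ceil _).trans ?_
    rw [hCdef]
    exact_mod_cast Nat.le_succ _
  refine ⟨C, hC1, ?_⟩
  intro a V hV hs
  have main : (atNegOne V).natAbs ≤ C * span V ^ evenMarked P.sites := by
    obtain ⟨w, hw⟩ := hV
    obtain ⟨W, hW⟩ : ∃ W, W = br (ins P.sites a) P.closure := ⟨_, rfl⟩
    have hw2 : TwistDiagram.toA V =
        (LaurentPolynomial.C (Int.negOnePow w : ℤ) * T (-3 * w)) * W := by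
      rw [hW]
      exact hw
    obtain ⟨h1, h2⟩ := tUn V W w hw2
    have hDW := hE a P.closure
    rw [← hW] at hDW
    obtain ⟨a', x, ha', hx⟩ := hC a W (4 * span V) hDW h1
    have hDW' := hE a' P.closure
    rw [hx, ← hDW] at hDW'
    have h3 : br (ins P.sites a') P.closure = T x * W :=
      mul_left_cancel₀ hD (hDW'.trans (by ring))
    obtain ⟨s, hsdef⟩ : ∃ s, s = span V := ⟨_, rfl⟩
    rw [← hsdef] at hs ha' ⊢
    have hs2 : (2 : ℝ) ≤ s := by exact_mod_cast hs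
    obtain ⟨B, hB⟩ : ∃ B : ℝ, B = ((C₁ : ℝ) + 1) * (4 * s + 1) := ⟨_, rfl⟩
    have hC0 : (0 : ℝ) ≤ C₁ := Nat.cast_nonneg _
    have hB1 : 1 ≤ B := by
      rw [hB]
      have h4 : (0 : ℝ) ≤ C₁ * (4 * s + 1) := by positivity
      linarith
    have haB : ∀ i, i < P.sites.length → |(a' i : ℝ)| ≤ B := by
      intro i hi
      have h4 : (|a' i| : ℝ) ≤ C₁ * (4 * s + 1) := by
        have := ha' i hi
        have h5 : ((|a' i| : ℤ) : ℝ) ≤ (((C₁ : ℤ) * (((4 * s : ℕ) : ℤ) + 1) : ℤ) : ℝ) := by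
          exact_mod_cast this
        push_cast at h5
        exact h5
      rw [hB]
      linarith
    have h4 := hEv a' B hB1 haB P.closure
    rw [h3, map_mul, norm_mul, ev_T, Units.val_zpow_eq_zpow_val, norm_zpow, A0_norm, one_zpow,
      one_mul, h2, ← hN] at h4
    have hB5 : B ≤ 5 * ((C₁ : ℝ) + 1) * s := by
      rw [hB]
      have h5 : ((C₁ : ℝ) + 1) * 1 ≤ ((C₁ : ℝ) + 1) * s :=
        mul_le_mul_of_nonneg_left (by linarith) (by linarith)
      linarith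
    have h6 : |(atNegOne V : ℝ)| ≤ C * (s : ℝ) ^ N := by
      calc |(atNegOne V : ℝ)| ≤ K * B ^ N := h4
        _ ≤ K * (5 * ((C₁ : ℝ) + 1) * s) ^ N :=
          mul_le_mul_of_nonneg_left (pow_le_pow_left₀ (by linarith) hB5 N) hK
        _ = K * (5 * ((C₁ : ℝ) + 1)) ^ N * (s : ℝ) ^ N := by rw [mul_pow]; ring
        _ ≤ C * (s : ℝ) ^ N := mul_le_mul_of_nonneg_right hCge (by positivity)
    rw [← hN]
    have h7 : ((atNegOne V).natAbs : ℝ) ≤ ((C * s ^ N : ℕ) : ℝ) := by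
      rw [Nat.cast_natAbs, Int.cast_abs]
      push_cast
      exact h6
    exact_mod_cast h7
  exact ⟨main, quotient_bound hC1 hs main⟩

end MP_fc1011_gt.LM
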