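import Pool.Agent.Lib.MP_fc1011_gt.LM.Ex
import Pool.Agent.Lib.MP_fc1011_gt.LM.Cu
import Pool.Agent.Lib.MP_fc1011_gt.LM.MainOf

/-!
# MP_fc1011_gt, Theorem LIM
-/

set_option autoImplicit false

namespace MP_fc1011_gt.LM

theorem tMain : S_Main := main_of tEx tCu

end MP_fc1011_gt.LM
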