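import Pool.Agent.Lib.MP_fc1011_gt.MV.Final
import Pool.Agent.Lib.MP_fc1011_gt.LM.Defs

/-!
# MP_fc1011_gt, Theorem LIM: specification

THEOREM.  For every `P : Parent m`, `m ≥ 1`, there is a constant `C` such that for all `a : ℕ → ℤ` and every
Jones polynomial `V` of `P.diagram a` with `s = span V ≥ 2`: `|V(-1)| ≤ C * s ^ evenMarked P.sites`.

Every `S_X` below is proved in the file `LM/X.lean` by `theorem tX : S_X` (hypotheses only where the docstring
says so).  Notation: `R = ℤ[T;T⁻¹]`; strands are numbered from `0`; `s_j = 1 + x_j`.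
-/

set_option autoImplicit false

namespace MP_fc1011_gt.LM

open LaurentPolynomial MP_fc1011_gt.MV Finset

/-! ## The Temperley-Lieb algebra at loop value 0 -/

/-- The relations of the Temperley-Lieb algebra of `k` strands with loop value `0`, in the generators
`x_j = A⁻² e_j`, `A⁴ = -1`. -/
structure XL {E : Type} [Ring E] (k : ℕ) (x : ℕ → E) : Prop where
  sq : ∀ j, j + 1 < k → x j * x j = 0
  up : ∀ j, j + 2 < k → x j * x (j + 1) * x j = -x j
  dn : ∀ j, j + 2 < k → x (j + 1) * x j * x (j + 1) = -x (j + 1)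
  comm : ∀ i j, i + 2 ≤ j → j + 1 < k → x i * x j = x j * x i

/-- The Jones-Wenzl element of `2 m + 1` strands at loop value `0`. -/
noncomputable def PP {E : Type} [Ring E] [Algebra ℚ E] (x : ℕ → E) : ℕ → E
  | 0 => 1
  | m + 1 => PP x m + PP x m * x (2 * m) * PP x m * x (2 * m + 1) +
      x (2 * m + 1) * PP x m * x (2 * m) * PP x m +
      ((m : ℚ) / (m + 1)) •
        (PP x m * (x (2 * m) * x (2 * m - 1) * x (2 * m + 1) * x (2 * m)) * PP x m)

/-- **Zj.**  The properties of `PP`.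

PROOF (induction on `m`; for `m = 0` everything is trivial, `x_0 x_0 = 0` for the last two).  Step `m → m + 1`
(`2 m + 3 ≤ k`).  Put `P = PP x m`, `P' = PP x (m+1)`, `a = x_(2m)`, `b = x_(2m+1)`, `d = x_(2m-1)`,
`γ = m/(m+1)`, `w = a d b a`, so `P' = P + PaPb + bPaP + γ PwP`.  By the third property `P` commutes with `b`
(`b` commutes with `x_j`, `j < 2m`).  `PP = P` by the fourth property.
(0) If `m = 0` then `P = 1`, `γ = 0`, `P' = 1 + ab + ba` and all claims are immediate from `aba = -a`, `bab = -b`,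
    `a² = b² = 0`.  Let `m ≥ 1`, `Q = PP x (m-1)`, `a' = x_(2m-2)`, `d' = x_(2m-3)`, `γ' = (m-1)/m`,
    `Y' = Q a' Q`, so `P = Q + Y' d + d Y' + γ' Q a' d' d a' Q`.  `Q`, `a'`, `d'`, `Y'` commute with `a` and `b`.
    If `m = 1` then `γ' = 0`, so in all cases `γ' • (a' d' a') = -γ' • a'`.  `Q P = P` (fifth property of `Q`,
    since `x_j P = 0` for `j < 2m`) and `a' P = 0`, so `Y' P = 0`.
(1) `a P a = -(2-γ') a Y'`: the four terms are `Q a² = 0`, `Y' (a d a) = -Y' a`, `(a d a) Y' = -a Y'` and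
    `γ' Q a' d' (a d a) a' Q = -γ' a Q (a' d' a') Q = γ' a Y'`.  Hence `a P a P = 0`, and `P a P a = 0` by symmetry.
(2) `a P b a = -Q a + Y' w + w Y' + γ' Q a' d' w a' Q` (term by term), hence `a P b a P = -a P + Y' w P`
    (`Q a P = a Q P = a P`, `Y' P = 0`, `a' Q P = a' P = 0`).
(3) `a P w P = (a P a) d b a P = -(2-γ') Y' w P`.
(4) `a P' = a P + (a P a P) b + a P b a P + γ a P w P = (1 - γ (2-γ')) Y' w P = 0`, since `γ (2-γ') = 1`.
(5) `b P' = b P + P (b a b) P + 0 + γ P b a d b a P = b P - b P - γ P b d a P = 0` (`b a d b a = (b a b) d a`,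
    and `P b d a P = b P d a P = 0`).  For `j < 2m`: `x_j P' = 0` since `x_j P = 0` and `x_j b = b x_j`.
(6) The right versions are symmetric (all products reversed; `w` is symmetric since `b d = d b`).
(7) Third property: clear.  Fourth: if `z x_j = 0` for `j < 2m + 2` then `z P' = z P + z P a P b + z b P a P +
    γ z P w P`, `z P = z`, `z a = 0`, `z b = 0`, `z w = 0`; so `z P' = z`.  Fifth: symmetric. -/
def S_Zj : Prop := ∀ (E : Type) [Ring E] [Algebra ℚ E] (k : ℕ) (x : ℕ → E), XL k x →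
  ∀ m : ℕ, 2 * m + 1 ≤ k →
    (∀ j, j < 2 * m → x j * PP x m = 0) ∧
    (∀ j, j < 2 * m → PP x m * x j = 0) ∧
    (∀ y, (∀ j, j < 2 * m → Commute (x j) y) → Commute (PP x m) y) ∧
    (∀ z, (∀ j, j < 2 * m → z * x j = 0) → z * PP x m = z) ∧
    (∀ z, (∀ j, j < 2 * m → x j * z = 0) → PP x m * z = z) ∧
    (2 * m + 2 ≤ k → x (2 * m) * PP x m * x (2 * m) * PP x m = 0)

/-- **Zf.**  The full twist at loop value `0`.  (Uses `tZj : S_Zj`.)

PROOF (induction on `k` in steps of two).  `k = 0, 1`: `f = 1`.  Let `f = FF s (k+2)`, `s_j = 1 + x_j`.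
(0) `Br (k+2) s` (braid relation: both sides are `1 + x_j + x_(j+1) + x_j x_(j+1) + x_(j+1) x_j`), so `f` commutes
    with all `x_j` (`FF_comm`).  As in `MV.FF_mul_e`: `JJ s (j+2) * x_0 = x_0 * JJ s'' j`,
    `FF s (j+2) * x_0 = (-1)^j • x_0 * FF s'' j`, `s''_j = s_(j+2)`.  (Direct: `s_0 x_0 = x_0`,
    `s_0 (s_1 x_0) = -x_1 x_0 ...`; or apply `MV.FF_mul_e` -- the proof of `MV.JJ_mul_e` can be copied.)
    Check: `s_0 * (s_1 * x_0) = (1+x_0)(x_0 + x_1 x_0) = x_0 + x_1 x_0 - x_0 = x_1 x_0`; `s_1 * (s_0 * x_1) =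
    x_0 x_1`; so `JJ s 2 * x_0 = s_1 s_0 s_0 s_1 x_0 = s_1 s_0 x_1 x_0 = x_0 x_1 x_0 = -x_0` and in general
    `JJ s (j+2) * x_0 = -(x_0 * JJ s'' j)`; `FF s 2 * x_0 = s_0 s_0 x_0 = x_0`.
(1) Let `G = (f-1)²` (`k` even) or `G = f² - 1` (`k` odd).  `G x_0 = x_0 G''` with the same expression `G''` for
    `s''` (the sign `(-1)^k` is right in both cases), so `G x_0 = 0` by induction; `G` commutes with all `x_j`, so
    `G x_(j+1) = -x_(j+1) (G x_j) x_(j+1) = 0`.
(2) `k + 2 = 2m + 1` odd: `P = PP x m`; `G = G P` (Zj, fourth property); `s_j P = P` for `j < 2m`, so `f P = P`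
    and `G P = 0`.
(3) `k + 2 = 2m + 2` even: `P = PP x m`, `a = x_(2m)`.  `f` commutes with `P`.  `P f P = P FF(2m+1) JJ(2m+1) P =
    P JJ(2m+1) P = P (1+a) JJ(2m) (1+a) P = P + 2 P a P + P (a JJ(2m) a) P`, because `P s_j = P = s_j P`.
    LEMMA: `x_j JJ(j) x_j = x_j g_j`, `g_0 = 0`, `g_(j+1) = -2 JJ(j) - g_j` (`j + 1 < k + 2`), and `g_j` commutes
    with `x_(j+1)` and everything which commutes with `x_0, …, x_(j-2)`: expand `JJ(j+1) = (1+x_j) JJ(j) (1+x_j)`
    between two `x_(j+1)`: `0 - x_(j+1) JJ(j) - x_(j+1) JJ(j) + x_(j+1) x_j g_j x_(j+1)`, the last one is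
    `-x_(j+1) g_j`.  Since `JJ(i) P = P` for `i ≤ 2m`, `g_(2m) P = 0`.  So `P f P = P + 2 P a P`, i.e.
    `(f - 1) P = 2 P a P` and `(f-1)² P = 4 P a P a P = 0` (Zj, last property), `G = G P = 0`. -/
def S_Zf : Prop := ∀ (E : Type) [Ring E] [Algebra ℚ E] (k : ℕ) (x : ℕ → E), XL k x →
  (Even k → (FF (fun j => 1 + x j) k - 1) * (FF (fun j => 1 + x j) k - 1) = 0) ∧
  (¬ Even k → FF (fun j => 1 + x j) k * FF (fun j => 1 + x j) k = 1)

/-- **Zt.**  The same for the generators `sg A e`, `A⁴ = -1`.  (Uses `tZf : S_Zf`.)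

PROOF.  `dl A = -A² - A⁻² = -A⁻² (A⁴ + 1) = 0`.  `x_j = A⁻² • e_j` satisfies `XL k x` (`x_j x_(j+1) x_j = A⁻⁶ e_j
= A⁻⁴ x_j = -x_j`), `sg A e j = A • (1 + x_j)`, so `JJ (sg A e) j = A^(2j) • JJ (1+x) j` and `FF (sg A e) j =
A^(j(j-1)) • FF (1+x) j` by induction.  (`Algebra ℚ E` by `Algebra.compHom`.) -/
def S_Zt : Prop := ∀ (E : Type) [Ring E] [Algebra ℂ E] (A : ℂˣ) (k : ℕ) (e : ℕ → E),
  (A : ℂ) ^ 4 = -1 → TL (dl A) k e →
  (Even k → (FF (sg A e) k - ((A : ℂ) ^ (k * (k - 1))) • (1 : E)) *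
    (FF (sg A e) k - ((A : ℂ) ^ (k * (k - 1))) • (1 : E)) = 0) ∧
  (¬ Even k → FF (sg A e) k * FF (sg A e) k =
    ((A : ℂ) ^ (k * (k - 1)) * (A : ℂ) ^ (k * (k - 1))) • (1 : E))

/-! ## Integral powers of the half twists -/

/-- The bracket of a list of regions, as a function of the pairing. -/
noncomputable def br {m : ℕ} (rs : List Region) : Closure m → ℤ[T;T⁻¹] := fun μ =>
  bracket (rs.flatMap Region.crossings) μ

/-- The generators (`ε = 1`: positive crossings, `ε = -1`: negative crossings). -/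
noncomputable def gn (m : ℕ) (ε : ℤ) (r : Region) : ℕ → Op m :=
  sg (tu ε) fun j => UU m (r.first + j)

/-- **Hz.**  The half twist is a unit, and a region with `h` half twists acts as its `h`-th power.

PROOF.  `sg (tu 1) e j * sg (tu (-1)) e j = 1` and conversely, because `(A + A⁻¹ e)(A⁻¹ + A e) = 1 + (A² + A⁻² +
δ) e = 1` (`e² = δ e`, `TL_UU`; only for `j + 1 < strands`).  For two families `s, s'` with `s_j s'_j = 1 = s'_j
s_j` (`j + 1 < k`) and `Br k s`, `Br k s'`: `HH s k * HH s' k = 1` by induction on `k`: `HH s (j+1) = HH s j *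
RR s j`, `HH s' (j+1) = LL s' j * HH s' j` (`HH_eq`) and `RR s j * LL s' j = 1`.  The formula for the bracket:
`val_region` (for `h > 0`: `gen = gn 1`; for `h ≤ 0`: `gen = gn (-1)`, `natAbs h = -h`), `val = delta • br`, and
`delta` is not a zero divisor in `R` (a domain). -/
def S_Hz : Prop := ∀ (m : ℕ) (r : Region), r.first + r.strands ≤ m →
  ∃ H : (Op m)ˣ, (H : Op m) = HH (gn m 1 r) r.strands ∧
    ((H⁻¹ : (Op m)ˣ) : Op m) = HH (gn m (-1) r) r.strands ∧
    (0 < m → ∀ (h : ℤ) (rest : List Region),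
      (br ({ r with halfTwists := h } :: rest) : Closure m → ℤ[T;T⁻¹]) =
        ((H ^ h : (Op m)ˣ) : Op m) (br rest))

/-- **Sp.**  Integral powers of an annihilated unit.

PROOF.  `M j = disc' x h j • aeval F (lag x h j)`.  `lagrange_aeval` with `n = 0`: `disc • 1 = ∑ M j`.
`(X - x_j) * lag x h j = ∏ (X - x_l)`, so `F * M j = x_j • M j`, hence `F ^ n * M j = x_j ^ n • M j` for all
`n : ℤ` (induction; for `F⁻¹` multiply by `F⁻¹` and `x_j⁻¹`).  Multiply `disc • 1 = ∑ M j` by `F ^ n`. -/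
def S_Sp : Prop := ∀ (S E : Type) [CommRing S] [IsDomain S] [Ring E] [Algebra S E] (F : Eˣ)
  (x : ℕ → Sˣ) (h : ℕ),
  (∀ i ∈ range (h + 1), ∀ j ∈ range (h + 1), (x i : S) = x j → i = j) →
  Polynomial.aeval (F : E) (∏ j ∈ range (h + 1), (Polynomial.X - Polynomial.C (x j : S))) = 0 →
  ∃ M : ℕ → E, ∀ n : ℤ, disc (fun j => (x j : S)) h • ((F ^ n : Eˣ) : E) =
    ∑ j ∈ range (h + 1), ((x j ^ n : Sˣ) : S) • M j

/-- **Ex.**  The bracket of all diagrams of a parent at once.  (Uses `tHz`, `tSp`.)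

PROOF.  Induction on the list.  `[]`: one term.  `(r, b) :: rs`: if `b = false`, apply the fixed operator
`H ^ r.halfTwists` to the formula for `rs` (`Hz`; operators are `R`-linear), with `e c 0 = 0` and `e c (i+1)` the
old exponents.  If `b = true`: `H ^ (h + 2 a₀) = H ^ h * F ^ a₀`, `F = H * H`, `(F : Op m) = FF (gn m 1 r)
r.strands` (`HH_sq`), annihilated by `ann (tu 1) strands = ∏ (X - lam ..)` (`aeval_ann`), `lam (tu 1) k j = T (ex 1
k j)` (`lam_tu`) which are different (`ex_inj`); with `x_j = tu (ex 1 k j)`, `tu_zpow`: `disc • F ^ a₀ = ∑_j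
T (ex 1 k j * a₀) • M j`.  New `D` = `disc * D`, new index type `Fin (h+1) × ι`, new `e (j, c) 0 = ex 1 k j`,
new `P (j, c) = (H ^ h * M j) (P c)`.  `D ≠ 0`: `disc` is a product of non-zero differences in a domain. -/
def S_Ex : Prop := ∀ (m : ℕ), 0 < m → ∀ sites : List (Region × Bool),
  (∀ r ∈ sites, r.1.first + r.1.strands ≤ m) →
  ∃ (ι : Type) (_ : Fintype ι) (D : ℤ[T;T⁻¹]) (e : ι → ℕ → ℤ) (P : ι → Closure m → ℤ[T;T⁻¹]),
    D ≠ 0 ∧ ∀ (a : ℕ → ℤ) (μ : Closure m), D * br (ins sites a) μ =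
      ∑ c, T (∑ i ∈ range sites.length, e c i * a i) * P c μ

/-! ## Evaluation at `A = exp (π i / 4)` -/

/-- `exp (π i / 4)`. -/
noncomputable def A0 : ℂˣ := Units.mk0 (Complex.exp (Real.pi / 4 * Complex.I)) (Complex.exp_ne_zero _)

/-- The value of a Laurent polynomial at `A0`. -/
noncomputable def ev : ℤ[T;T⁻¹] →+* ℂ := LaurentPolynomial.eval₂ (Int.castRingHom ℂ) A0

/-- The operator of a cap and a cup at loop value `0`. -/
noncomputable def UG (m i : ℕ) : Module.End ℂ (Closure m → ℂ) where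
  toFun φ μ := (0 : ℂ) ^ lp μ i * φ (μ.cap i)
  map_add' φ ψ := by
    funext μ
    simp [mul_add]
  map_smul' a φ := by
    funext μ
    simp only [Pi.smul_apply, smul_eq_mul, RingHom.id_apply]
    ring

/-- The generators at loop value `0`. -/
noncomputable def gz (m : ℕ) (ε : ℤ) (r : Region) : ℕ → Module.End ℂ (Closure m → ℂ) :=
  sg (A0 ^ ε) fun j => UG m (r.first + j)

/-- **E1.**  Basic facts on the evaluation.

PROOF.  `A0⁴ = exp (π i) = -1`, norm `1`; `ev (T n) = A0 ^ n` (`eval₂_T_n`, `eval₂_T_neg_n` or the general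
lemma); `ev delta = -A0² - A0⁻² = 0`; TL relations of `UG`: copy the proof of `MV.TL_UU` with `0` in place of
`delta` (and `ℂ` in place of `R`). -/
def S_E1 : Prop :=
  (A0 : ℂ) ^ 4 = -1 ∧ ‖(A0 : ℂ)‖ = 1 ∧ (∀ n : ℤ, ev (T n) = ((A0 ^ n : ℂˣ) : ℂ)) ∧ ev delta = 0 ∧
  (∀ ε : ℤ, ε = 1 ∨ ε = -1 → dl (A0 ^ ε) = 0) ∧
  (∀ m i k : ℕ, i + k ≤ m → TL (0 : ℂ) k (fun j => UG m (i + j)))

/-- The operator `F` over `R` specialises to the operator `G` over `ℂ`. -/
def Comp {m : ℕ} (F : Op m) (G : Module.End ℂ (Closure m → ℂ)) : Prop :=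
  ∀ (φ : Closure m → ℤ[T;T⁻¹]) (μ : Closure m), ev (F φ μ) = G (fun ν => ev (φ ν)) μ

/-- The norm (for the maximum norm of functions) of `G` is at most `K`. -/
def Bd {m : ℕ} (G : Module.End ℂ (Closure m → ℂ)) (K : ℝ) : Prop :=
  0 ≤ K ∧ ∀ (φ : Closure m → ℂ) (B : ℝ), (∀ μ, ‖φ μ‖ ≤ B) → ∀ μ, ‖G φ μ‖ ≤ K * B

/-- **E2.**  Specialisation and boundedness of the powers of one half twist.  (Uses `tHz`, `tE1`, `tZt`.)

PROOF.  `Comp` is closed under `*`, `+`, `1` and `c • F` ↦ `ev c • G`; `Comp (UU m i) (UG m i)` (`ev delta = 0`),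
so `Comp (gn m ε r j) (gz m ε r j)` and `Comp (HH (gn m ε r) k) (HH (gz m ε r) k)`.  `Bd` is closed in the same
way (`Bd (F*G) (K*K')`, `Bd (F+G) (K+K')`, `Bd (c • F) (‖c‖ * K)`, `Bd 1 1`, `Bd (UG m i) 1` since `‖0 ^ n‖ ≤ 1`), so
`HH (gz m ε r) k` has some bound.  As in `Hz`, `H0 = HH (gz m 1 r) k` is a unit with inverse `HH (gz m (-1) r) k`
(same proof, `TL 0`, `E1`), so `Comp (H ^ n) (H0 ^ n)` for all `n : ℤ`.  `F0 = H0 * H0 = FF (gz m 1 r) k`
(`HH_sq`).  By `Zt` (`A = A0`, `u = A0^(k(k-1))`, `‖u‖ = 1`): `k` even: `F0 = u (1 + N)`, `N² = 0`, `F0 ^ a = u ^ a •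
(1 + a N)` for all `a : ℤ`, so `Bd (F0 ^ a) (1 + |a| ‖N‖)`; `k` odd: `F0² = u²`, so `F0 ^ a` is `u ^ a • 1` or
`u ^ (a-1) • F0`.  Hence for `H0 ^ (h + 2 a) = H0 ^ h * F0 ^ a`: bound `K * B ^ [k even]` whenever `|a| ≤ B`,
`1 ≤ B`. -/
def S_E2 : Prop := ∀ (m : ℕ) (r : Region), r.first + r.strands ≤ m → ∀ H : (Op m)ˣ,
  (H : Op m) = HH (gn m 1 r) r.strands → ((H⁻¹ : (Op m)ˣ) : Op m) = HH (gn m (-1) r) r.strands →
  ∀ h : ℤ, ∃ K : ℝ, 0 ≤ K ∧ ∀ (a : ℤ) (B : ℝ), 1 ≤ B → |(a : ℝ)| ≤ B →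
    ∃ G : Module.End ℂ (Closure m → ℂ), Comp ((H ^ (h + 2 * a) : (Op m)ˣ) : Op m) G ∧
      Bd G (K * B ^ (if Even r.strands then 1 else 0))

/-- **Ev.**  The values at `A0` of the brackets of the diagrams of a parent.  (Uses `tHz`, `tE1`, `tE2`.)

PROOF.  Induction on the list.  `[]`: `br [] μ = delta ^ (cyc μ - 1)` (divide `delta_bracket_nil` by `delta`;
`0 < cyc μ` by `loops_pos`), value `0 ^ n`, norm `≤ 1`.  `(r, b) :: rs`: `Hz` and `E2` (with `a = a 0` if `b =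
true`, `a = 0` otherwise; in the second case use `|0| ≤ 1`, `B = 1`). -/
def S_Ev : Prop := ∀ (m : ℕ), 0 < m → ∀ sites : List (Region × Bool),
  (∀ r ∈ sites, r.1.first + r.1.strands ≤ m) →
  ∃ K : ℝ, 0 ≤ K ∧ ∀ (a : ℕ → ℤ) (B : ℝ), 1 ≤ B → (∀ i, i < sites.length → |(a i : ℝ)| ≤ B) →
    ∀ μ : Closure m, ‖ev (br (ins sites a) μ)‖ ≤ K * B ^ evenMarked sites

/-! ## Lattice reduction -/

/-- **La.**  Small integral solutions.

PROOF.  `Λ : (Fin n → ℤ) →ₗ[ℤ] (ι → ℤ)`, `a ↦ (c ↦ ∑ L c i a i)`; its range is a submodule of a finite free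
`ℤ`-module, so it has a finite basis `b_1, …, b_l`, `b_j = Λ x_j`.  The `b_j` are linearly independent over `ℤ`,
so over `ℚ` as vectors of `ι → ℚ` (`LinearIndependent.iff_fractionRing` or clear denominators), so there are
rational numbers `q_(j,c)` with `repr(y)_j = ∑_c q_(j,c) y_c` for all `y` in the range (left inverse,
`LinearMap.exists_leftInverse_of_injective`), hence `|repr(y)_j| ≤ C₁ max_c |y_c|`.  Take `a' = ∑_j repr(Λ a)_j x_j`. -/
def S_La : Prop := ∀ (ι : Type) [Fintype ι] (n : ℕ) (L : ι → ℕ → ℤ),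
  ∃ C : ℕ, ∀ (a : ℕ → ℤ) (B : ℕ), (∀ c, |∑ i ∈ range n, L c i * a i| ≤ B) →
    ∃ a' : ℕ → ℤ, (∀ c, ∑ i ∈ range n, L c i * a' i = ∑ i ∈ range n, L c i * a i) ∧
      ∀ i, i < n → |a' i| ≤ C * B

/-- **Cu.**  Clusters of exponents.  (Uses `tLa : S_La`.)

PROOF.  Let `E c = ∑ e c i a i`, `H` a number such that the supports of all `P c` are in `[-H, H]`, `G = s + span D
+ 2 H + 1` and `N = card ι`.  Call `c, c'` related if `|E c - E c'| ≤ G`; clusters = classes of the generated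
equivalence relation; `|E c - E c'| ≤ N G` inside a cluster (shortest chain), and `|E c - E c'| > G` for `c, c'`
in different clusters.  The sum `S_κ` over a cluster has its support in the union of the `[E c - H, E c + H]`, so the
supports of two different `S_κ` have distance `≥ s + span D + 1`; in particular they are disjoint, every point
of them is in the support of `D W`, and all points of this support have distance `≤ span D + s` (the extreme
exponents of a product in a domain add up: `span (D W) = span D + span W`; or `≤`, which is what is needed).  So at most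
one `S_κ` is not zero.  For each of the finitely many functions `π : ι × ι → Bool` apply `La` to the family
`L (c, c') = e c - e c'` if `π (c, c') = true`, `0` otherwise, and let `C₀` be the sum of the constants.  With `π` the
indicator of 'same cluster' we get `a'`, `|a' i| ≤ C₀ N G ≤ C (s + 1)`, and `E' c - E' c' = E c - E c'` inside the
clusters, so `S'_κ = T (x_κ) S_κ` and the whole sum is multiplied by `T (x)`, `x` = the shift of the only
non-zero cluster (`x = 0` if there is none). -/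
def S_Cu : Prop := ∀ (ι : Type) [Fintype ι] (n : ℕ) (e : ι → ℕ → ℤ) (P : ι → ℤ[T;T⁻¹])
  (D : ℤ[T;T⁻¹]), D ≠ 0 → ∃ C : ℕ, ∀ (a : ℕ → ℤ) (W : ℤ[T;T⁻¹]) (s : ℕ),
    D * W = ∑ c, T (∑ i ∈ range n, e c i * a i) * P c → span W ≤ s →
    ∃ (a' : ℕ → ℤ) (x : ℤ), (∀ i, i < n → |a' i| ≤ C * (s + 1)) ∧
      ∑ c, T (∑ i ∈ range n, e c i * a' i) * P c =
        T x * ∑ c, T (∑ i ∈ range n, e c i * a i) * P c

/-- **Un.**  From the Jones polynomial to the bracket.

PROOF.  `W = unit * toA V` (multiply by `C ε * T (3 w)`); the support of `toA V` is `-4` times the support of `V`,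
multiplication by `C ε * T j` shifts the support, so `span W = 4 * span V`.  `ev (C ε * T j)` has norm `1`, `ev (toA V)
= ∑ c_i (A0⁻⁴)^i = ∑ c_i (-1)^i`. -/
def S_Un : Prop := ∀ (V W : ℤ[T;T⁻¹]) (w : ℤ),
  TwistDiagram.toA V = (C (Int.negOnePow w : ℤ) * T (-3 * w)) * W →
    span W ≤ 4 * span V ∧ ‖ev W‖ = |(atNegOne V : ℝ)|

/-- **Main.**  (Uses `tEx`, `tEv`, `tCu`, `tUn`, `tE1`.)

PROOF.  `Ex` gives `ι, D, e, P`; apply `Cu` to `P c P.closure`, constant `C₁`; `Ev`: constant `K`.  Given `a, V` with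
`s = span V ≥ 2`: `W = br (ins sites a) closure`, `span W ≤ 4 s` (`Un`); `Cu` with `4 s`: `a'`, `|a' i| ≤ C₁ (4 s + 1) ≤
5 C₁ s`, and `D * br (ins sites a') closure = T x * (D * W)`, so `br (ins sites a') closure = T x * W` and `‖ev W‖ =
‖ev (br (ins sites a') closure)‖ ≤ K (5 (C₁+1) s) ^ evenMarked`.  `‖ev W‖ = |V(-1)|`.  `C` = a natural number above
`K * (5 (C₁ + 1)) ^ evenMarked`, at least `1`.  Quotient: take logarithms as in `MV.quotient_le`. -/
def S_Main : Prop := ∀ (m : ℕ), 0 < m → ∀ P : Parent m, ∃ C : ℕ, 1 ≤ C ∧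
  ∀ (a : ℕ → ℤ) (V : ℤ[T;T⁻¹]), (P.diagram a).IsJones V → 2 ≤ span V →
    (atNegOne V).natAbs ≤ C * span V ^ evenMarked P.sites ∧
      quotient V ≤ evenMarked P.sites + Real.log C / Real.log (span V)

end MP_fc1011_gt.LM
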