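import Pool.Agent.Lib.MP_fc1011_gt.LM.Zj

/-!
# MP_fc1011_gt, Theorem LIM, module Zf: the full twist at loop value 0
-/

set_option autoImplicit false

namespace MP_fc1011_gt.LM

open MP_fc1011_gt.MV

section ring

variable {E : Type} [Ring E]

private theorem XL.br {k : ℕ} {x : ℕ → E} (hx : XL k x) : Br k (fun j => 1 + x j) where
  brd j hj := by
    have h1 := hx.sq j (by omega)
    have h2 := hx.sq (j + 1) (by omega)
    have h3 := hx.up j (by omega)
    have h4 := hx.dn j (by omega)
    have e1 : (1 + x j) * (1 + x (j + 1)) * (1 + x j) = 1 + x j + x j + x (j + 1) +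
        x (j + 1) * x j + x j * x (j + 1) + x j * x j + x j * x (j + 1) * x j := by
      noncomm_ring
    have e2 : (1 + x (j + 1)) * (1 + x j) * (1 + x (j + 1)) = 1 + x (j + 1) + x (j + 1) + x j +
        x (j + 1) * x j + x j * x (j + 1) + x (j + 1) * x (j + 1) +
        x (j + 1) * x j * x (j + 1) := by
      noncomm_ring
    change (1 + x j) * (1 + x (j + 1)) * (1 + x j) = (1 + x (j + 1)) * (1 + x j) * (1 + x (j + 1))
    rw [e1, e2, h1, h2, h3, h4]
    abel
  comm i j hij hj := by
    have h1 : Commute (x i) (x j) := hx.comm i j hij hj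
    exact ((Commute.one_left _).add_left ((Commute.one_right _).add_right h1))

private theorem XL.shift {k : ℕ} {x : ℕ → E} (h : XL (k + 2) x) :
    XL k (fun j => x (j + 2)) where
  sq j hj := h.sq (j + 2) (by omega)
  up j hj := h.up (j + 2) (by omega)
  dn j hj := h.dn (j + 2) (by omega)
  comm i j hij hj := h.comm (i + 2) (j + 2) (by omega) (by omega)

private theorem one_add_commute {y z : E} (h : Commute y z) : Commute (1 + y) z :=
  (Commute.one_left z).add_left h

private theorem JJ_mul_x {k : ℕ} {x : ℕ → E} (h : XL k x) : ∀ j, j + 2 < k →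
    JJ (fun j => 1 + x j) (j + 2) * x 0 = -(x 0 * JJ (fun j => 1 + x (j + 2)) j)
  | 0, hj => by
    have h0 := h.sq 0 (by omega)
    have h1 := h.sq 1 (by omega)
    have h2 := h.up 0 (by omega)
    have h3 := h.dn 0 (by omega)
    have e1 : (1 + x 0) * ((1 + x 1) * x 0) = x 1 * x 0 := by
      have : (1 + x 0) * ((1 + x 1) * x 0) = x 0 + x 1 * x 0 + x 0 * x 0 + x 0 * x 1 * x 0 := by
        noncomm_ring
      rw [this, h0, h2]
      abel
    have e2 : (1 + x 1) * ((1 + x 0) * x 1) = x 0 * x 1 := by
      have : (1 + x 1) * ((1 + x 0) * x 1) = x 1 + x 0 * x 1 + x 1 * x 1 + x 1 * x 0 * x 1 := by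
        noncomm_ring
      rw [this, h1, h3]
      abel
    change (1 + x 1) * ((1 + x 0) * 1 * (1 + x 0)) * (1 + x 1) * x 0 = -(x 0 * 1)
    calc (1 + x 1) * ((1 + x 0) * 1 * (1 + x 0)) * (1 + x 1) * x 0
        = (1 + x 1) * ((1 + x 0) * ((1 + x 0) * ((1 + x 1) * x 0))) := by
          simp only [mul_one, mul_assoc]
      _ = ((1 + x 1) * ((1 + x 0) * x 1)) * x 0 := by rw [e1]; simp only [mul_assoc]
      _ = -(x 0 * 1) := by rw [e2, h2, mul_one]
  | j + 1, hj => by
    have ih := JJ_mul_x h j (by omega)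
    have h1 : (1 + x (j + 2)) * x 0 = x 0 * (1 + x (j + 2)) :=
      (one_add_commute (Commute.symm (h.comm 0 (j + 2) (by omega) (by omega)))).eq
    change (1 + x (j + 2)) * JJ (fun j => 1 + x j) (j + 2) * (1 + x (j + 2)) * x 0 =
      -(x 0 * ((1 + x (j + 2)) * JJ (fun j => 1 + x (j + 2)) j * (1 + x (j + 2))))
    calc (1 + x (j + 2)) * JJ (fun j => 1 + x j) (j + 2) * (1 + x (j + 2)) * x 0
        = (1 + x (j + 2)) * (JJ (fun j => 1 + x j) (j + 2) * ((1 + x (j + 2)) * x 0)) := by
          simp only [mul_assoc]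
      _ = (1 + x (j + 2)) * ((JJ (fun j => 1 + x j) (j + 2) * x 0) * (1 + x (j + 2))) := by
          rw [h1, mul_assoc]
      _ = -(((1 + x (j + 2)) * x 0) * (JJ (fun j => 1 + x (j + 2)) j * (1 + x (j + 2)))) := by
          rw [ih]; simp only [neg_mul, mul_neg, mul_assoc]
      _ = _ := by rw [h1]; simp only [mul_assoc]

private theorem FF_mul_x {k : ℕ} {x : ℕ → E} (h : XL k x) : ∀ j, j + 2 ≤ k →
    FF (fun j => 1 + x j) (j + 2) * x 0 =
      ((-1 : ℤ) ^ j) • (x 0 * FF (fun j => 1 + x (j + 2)) j)
  | 0, hj => by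
    have h0 := h.sq 0 (by omega)
    have e1 : (1 + x 0) * x 0 = x 0 := by rw [add_mul, one_mul, h0, add_zero]
    change 1 * 1 * ((1 + x 0) * 1 * (1 + x 0)) * x 0 = _ • (x 0 * 1)
    calc 1 * 1 * ((1 + x 0) * 1 * (1 + x 0)) * x 0 = (1 + x 0) * ((1 + x 0) * x 0) := by
          simp only [mul_one, one_mul, mul_assoc]
      _ = _ := by rw [e1, e1, pow_zero, one_smul, mul_one]
  | j + 1, hj => by
    have ih := FF_mul_x h j (by omega)
    change FF (fun j => 1 + x j) (j + 2) * JJ (fun j => 1 + x j) (j + 2) * x 0 =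
      _ • (x 0 * (FF (fun j => 1 + x (j + 2)) j * JJ (fun j => 1 + x (j + 2)) j))
    rw [mul_assoc, JJ_mul_x h j (by omega), mul_neg, ← mul_assoc, ih, smul_mul_assoc, mul_assoc,
      pow_succ, mul_neg_one, neg_smul]

/-- the coefficient of `x_j` in `x_j JJ(j) x_j` -/
private def gg (x : ℕ → E) : ℕ → E
  | 0 => 0
  | j + 1 => -(JJ (fun j => 1 + x j) j + JJ (fun j => 1 + x j) j) - gg x j

private theorem gg_commute {x : ℕ → E} {y : E} : ∀ j, (∀ l, l + 1 < j → Commute (x l) y) →
    Commute (gg x j) y
  | 0, _ => Commute.zero_left y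
  | j + 1, h => by
    have h1 : Commute (JJ (fun j => 1 + x j) j) y :=
      JJ_commute j fun l hl => one_add_commute (h l (by omega))
    exact ((h1.add_left h1).neg_left).sub_left (gg_commute j fun l hl => h l (by omega))

private theorem x_JJ_x {k : ℕ} {x : ℕ → E} (h : XL k x) : ∀ j, j + 1 < k →
    x j * JJ (fun j => 1 + x j) j * x j = x j * gg x j
  | 0, hj => by
    change x 0 * 1 * x 0 = x 0 * 0
    rw [mul_one, h.sq 0 hj, mul_zero]
  | j + 1, hj => by
    have ih := x_JJ_x h j (by omega)
    obtain ⟨J, hJ⟩ : ∃ J, J = JJ (fun j => 1 + x j) j := ⟨_, rfl⟩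
    have hJc : J * x (j + 1) = x (j + 1) * J := by
      rw [hJ]
      exact (JJ_commute j fun l hl => one_add_commute (h.comm l (j + 1) (by omega) (by omega))).eq
    have hgc : gg x j * x (j + 1) = x (j + 1) * gg x j :=
      (gg_commute j fun l hl => h.comm l (j + 1) (by omega) (by omega)).eq
    have h0 := h.sq (j + 1) (by omega)
    have h3 := h.dn j (by omega)
    rw [← hJ] at ih
    change x (j + 1) * ((1 + x j) * JJ (fun j => 1 + x j) j * (1 + x j)) * x (j + 1) =
      x (j + 1) * (-(JJ (fun j => 1 + x j) j + JJ (fun j => 1 + x j) j) - gg x j)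
    rw [← hJ]
    obtain ⟨b, hb⟩ : ∃ b, b = x (j + 1) := ⟨_, rfl⟩
    obtain ⟨a, ha⟩ : ∃ a, a = x j := ⟨_, rfl⟩
    rw [← hb, ← ha] at h3
    rw [← hb] at h0 hJc hgc ⊢
    rw [← ha] at ih ⊢
    have e : b * ((1 + a) * J * (1 + a)) * b = b * J * b + b * a * (J * b) + (b * J) * a * b +
        b * (a * J * a) * b := by
      noncomm_ring
    have e1 : b * J * b = 0 := by rw [← hJc, mul_assoc, h0, mul_zero]
    have e2 : b * a * (J * b) = -(b * J) := by rw [hJc, ← mul_assoc, h3, neg_mul]
    have e3 : (b * J) * a * b = -(b * J) := by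
      rw [← hJc, mul_assoc J, mul_assoc J, h3, mul_neg, hJc]
    have e4 : b * (a * J * a) * b = -(b * gg x j) := by
      rw [ih, mul_assoc, mul_assoc a, hgc, ← mul_assoc a, ← mul_assoc b, ← mul_assoc, h3, neg_mul]
    rw [e, e1, e2, e3, e4]
    noncomm_ring

end ring

section fix

variable {E : Type} [Ring E]

private theorem fix_JJ {x : ℕ → E} {P : E} {n : ℕ} (h : ∀ j, j < n → x j * P = 0) :
    ∀ j, j ≤ n → JJ (fun j => 1 + x j) j * P = P
  | 0, _ => one_mul P
  | j + 1, hj => by
    have ih := fix_JJ h j (by omega)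
    have h1 : (1 + x j) * P = P := by rw [add_mul, one_mul, h j (by omega), add_zero]
    change (1 + x j) * JJ (fun j => 1 + x j) j * (1 + x j) * P = P
    rw [mul_assoc, h1, mul_assoc, ih, h1]

private theorem fix_FF {x : ℕ → E} {P : E} {n : ℕ} (h : ∀ j, j < n → x j * P = 0) :
    ∀ j, j ≤ n + 1 → FF (fun j => 1 + x j) j * P = P
  | 0, _ => one_mul P
  | j + 1, hj => by
    change FF (fun j => 1 + x j) j * JJ (fun j => 1 + x j) j * P = P
    rw [mul_assoc, fix_JJ h j (by omega), fix_FF h j (by omega)]

private theorem fix_gg {x : ℕ → E} {P : E} {n : ℕ} (h : ∀ j, j < n → x j * P = 0) :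
    ∀ i, 2 * i ≤ n → gg x (2 * i) * P = 0
  | 0, _ => zero_mul P
  | i + 1, hi => by
    have ih := fix_gg h i (by omega)
    change (-(JJ (fun j => 1 + x j) (2 * i + 1) + JJ (fun j => 1 + x j) (2 * i + 1)) -
      (-(JJ (fun j => 1 + x j) (2 * i) + JJ (fun j => 1 + x j) (2 * i)) - gg x (2 * i))) * P = 0
    rw [sub_mul, sub_mul, neg_mul, neg_mul, add_mul, add_mul, fix_JJ h _ (by omega),
      fix_JJ h _ (by omega), ih]
    abel

end fix

theorem tZf : S_Zf := by
  intro E _ _ k
  induction k using Nat.strong_induction_on with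
  | _ k ih =>
    intro x hx
    rcases k with _ | k
    · refine ⟨fun _ => ?_, fun h => absurd (Even.zero) h⟩
      change ((1 : E) - 1) * (1 - 1) = 0
      rw [sub_self, zero_mul]
    rcases k with _ | k
    · refine ⟨fun h => absurd h (by decide), fun _ => ?_⟩
      change ((1 : E) * 1) * (1 * 1) = 1
      rw [one_mul, one_mul]
    obtain ⟨f, hf⟩ : ∃ f, f = FF (fun j => 1 + x j) (k + 2) := ⟨_, rfl⟩
    obtain ⟨f'', hf''⟩ : ∃ f'', f'' = FF (fun j => 1 + x (j + 2)) k := ⟨_, rfl⟩
    have ih2 := ih k (by omega) (fun j => x (j + 2)) hx.shift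
    have hF := FF_mul_x hx k le_rfl
    rw [← hf, ← hf''] at hF
    rw [← hf''] at ih2
    change (Even (k + 2) → (FF (fun j => 1 + x j) (k + 2) - 1) *
      (FF (fun j => 1 + x j) (k + 2) - 1) = 0) ∧ (¬ Even (k + 2) →
      FF (fun j => 1 + x j) (k + 2) * FF (fun j => 1 + x j) (k + 2) = 1)
    rw [← hf]
    have hfx : ∀ j, j + 1 < k + 2 → x j * f = f * x j := by
      intro j hj
      have h1 : Commute (1 + x j) f := by
        rw [hf]
        exact FF_comm hx.br (k + 2) le_rfl j hj
      have h2 : Commute (1 + x j - 1) f := h1.sub_left (Commute.one_left f)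
      rw [add_sub_cancel_left] at h2
      exact h2.eq
    -- an element which commutes with the generators and annihilates `x 0`
    have key : ∀ G : E, (∀ j, j + 1 < k + 2 → x j * G = G * x j) → G * x 0 = 0 →
        ∀ j, j + 1 < k + 2 → G * x j = 0 := by
      intro G hG h0 j
      induction j with
      | zero => intro _; exact h0
      | succ j ihj =>
        intro hj
        have h1 := hx.dn j (by omega)
        have h2 : G * x (j + 1) = -(x (j + 1) * (G * x j) * x (j + 1)) := by
          rw [← mul_assoc, hG (j + 1) hj, mul_assoc, mul_assoc, ← mul_assoc (x (j + 1)), h1,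
            mul_neg, neg_neg]
        rw [h2, ihj (by omega), mul_zero, zero_mul, neg_zero]
    constructor
    · intro hev
      have hk : Even k := by
        rw [Nat.even_add] at hev
        exact hev.mpr even_two
      obtain ⟨i, hi⟩ := hk
      have ih3 := ih2.1 ⟨i, hi⟩
      rw [Even.neg_one_pow ⟨i, hi⟩, one_smul] at hF
      obtain ⟨L, R, cP, KR, KL, DD⟩ := tZj E (k + 2) x hx i (by omega)
      have hki : k = 2 * i := by omega
      obtain ⟨P, hP⟩ : ∃ P, P = PP x i := ⟨_, rfl⟩
      rw [← hP] at L R cP KR KL DD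
      have hPP : P * P = P := KR P R
      have hfP : P * f = f * P := (cP f fun j hj => hfx j (by omega)).eq
      have hG := key ((f - 1) * (f - 1))
        (fun j hj => by
          have h1 : Commute (x j) (f - 1) := Commute.sub_right (hfx j hj) (Commute.one_right _)
          exact (h1.mul_right h1).eq)
        (by
          have h1 : (f - 1) * x 0 = x 0 * (f'' - 1) := by
            rw [sub_mul, one_mul, hF, mul_sub, mul_one]
          rw [mul_assoc, h1, ← mul_assoc, h1, mul_assoc, ih3, mul_zero])
      have hGP := KR ((f - 1) * (f - 1)) fun j hj => hG j (by omega)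
      -- `P f P = P + 2 P a P`
      have hfP2 : P * f * P = P + (P * x (2 * i) * P + P * x (2 * i) * P) := by
        have e0 : f = FF (fun j => 1 + x j) (2 * i + 1) *
            ((1 + x (2 * i)) * JJ (fun j => 1 + x j) (2 * i) * (1 + x (2 * i))) := by
          rw [hf, hki]
          rfl
        have e1 : P * FF (fun j => 1 + x j) (2 * i + 1) = P := by
          have h1 : Commute P (FF (fun j => 1 + x j) (2 * i + 1)) := by
            refine cP _ fun j hj => ?_
            have h2 : Commute (1 + x j) (FF (fun j => 1 + x j) (2 * i + 1)) :=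
              FF_comm hx.br (2 * i + 1) (by omega) j (by omega)
            have h3 := h2.sub_left (Commute.one_left _)
            rwa [add_sub_cancel_left] at h3
          rw [h1.eq]
          exact fix_FF L _ (by omega)
        have e2 : P * JJ (fun j => 1 + x j) (2 * i) = P := by
          have h1 : JJ (fun j => 1 + x j) (2 * i) * P = P := fix_JJ L _ le_rfl
          have h2 : ∀ n, n ≤ 2 * i → P * JJ (fun j => 1 + x j) n = P := by
            intro n
            induction n with
            | zero => intro _; exact mul_one P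
            | succ n ihn =>
              intro hn
              have h3 : P * (1 + x n) = P := by rw [mul_add, mul_one, R n (by omega), add_zero]
              change P * ((1 + x n) * JJ (fun j => 1 + x j) n * (1 + x n)) = P
              rw [← mul_assoc, ← mul_assoc, h3, ihn (by omega), h3]
          exact h2 _ le_rfl
        have e3 : JJ (fun j => 1 + x j) (2 * i) * P = P := fix_JJ L _ le_rfl
        have e4 : x (2 * i) * JJ (fun j => 1 + x j) (2 * i) * x (2 * i) * P = 0 := by
          rw [x_JJ_x hx (2 * i) (by omega), mul_assoc, fix_gg L i le_rfl, mul_zero]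
        obtain ⟨J, hJ⟩ : ∃ J, J = JJ (fun j => 1 + x j) (2 * i) := ⟨_, rfl⟩
        obtain ⟨a, ha⟩ : ∃ a, a = x (2 * i) := ⟨_, rfl⟩
        rw [e0, ← mul_assoc P, e1]
        rw [← hJ] at e2 e3 e4 ⊢
        rw [← ha] at e4 ⊢
        have e5 : P * ((1 + a) * J * (1 + a)) * P = (P * J) * P + P * a * (J * P) +
            (P * J) * a * P + P * (a * J * a * P) := by
          noncomm_ring
        rw [e5, e2, e3, e4, hPP, mul_zero, add_zero]
        abel
      have h5 : (f - 1) * P = P * x (2 * i) * P + P * x (2 * i) * P := by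
        have h6 : f * P = P * f * P := by rw [hfP, mul_assoc, hPP]
        rw [sub_mul, one_mul, h6, hfP2]
        abel
      rw [← hGP, mul_assoc, h5]
      have h7 : (f - 1) * (P * x (2 * i) * P + P * x (2 * i) * P) =
          ((f - 1) * P) * x (2 * i) * P + ((f - 1) * P) * x (2 * i) * P := by
        noncomm_ring
      have h8 : P * x (2 * i) * P * x (2 * i) * P = 0 := by
        have h9 := DD (by omega)
        calc P * x (2 * i) * P * x (2 * i) * P = P * (x (2 * i) * P * x (2 * i) * P) := by
              simp only [mul_assoc]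
          _ = 0 := by rw [h9, mul_zero]
      rw [h7, h5]
      simp only [add_mul]
      rw [h8]
      simp
    · intro hodd
      have hk : ¬ Even k := fun h => hodd (h.add even_two)
      have ih3 := ih2.2 hk
      have hk2 : Odd k := Nat.not_even_iff_odd.mp hk
      rw [Odd.neg_one_pow hk2, neg_smul, one_smul] at hF
      obtain ⟨i, hi⟩ := hk2
      obtain ⟨L, R, cP, KR, KL, -⟩ := tZj E (k + 2) x hx (i + 1) (by omega)
      have hG := key (f * f - 1)
        (fun j hj => by
          have h1 : Commute (x j) f := hfx j hj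
          exact ((h1.mul_right h1).sub_right (Commute.one_right _)).eq)
        (by
          rw [sub_mul, one_mul, mul_assoc, hF, mul_neg, ← mul_assoc, hF, neg_mul, neg_neg,
            mul_assoc, ih3, mul_one, sub_self])
      have hGP := KR (f * f - 1) fun j hj => hG j (by omega)
      have hfP : f * PP x (i + 1) = PP x (i + 1) := by
        rw [hf]
        exact fix_FF L _ (by omega)
      have h5 : (f * f - 1) * PP x (i + 1) = 0 := by
        rw [sub_mul, one_mul, mul_assoc, hfP, hfP, sub_self]
      rw [h5] at hGP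
      exact (sub_eq_zero.mp hGP.symm)

end MP_fc1011_gt.LM
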