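import Pool.Agent.Lib.MP_fc1011_gt.LM.Spec

/-!
# MP_fc1011_gt, Theorem LIM, module Zj: the Jones-Wenzl element at loop value 0
-/

set_option autoImplicit false

namespace MP_fc1011_gt.LM

open MP_fc1011_gt.MV

section step

variable {E : Type} [Ring E] [Algebra ℚ E]

private theorem stepD {P Q a d a' d' : E} {g : ℚ}
    (hP : P = Q + Q * a' * Q * d + d * (Q * a' * Q) + g • (Q * (a' * d' * d * a') * Q))
    (hQa : Q * a = a * Q) (ha'a : a' * a = a * a') (hd'a : d' * a = a * d')
    (haa : a * a = 0) (hada : a * d * a = -a) (hg : g • (a' * d' * a') = -(g • a'))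
    (hQP : Q * P = P) (ha'P : a' * P = 0) :
    a * P * a = -((2 - g) • (a * (Q * a' * Q))) ∧ a * P * a * P = 0 := by
  have hQa' : ∀ z, Q * (a * z) = a * (Q * z) := fun z => by
    rw [← mul_assoc, hQa, mul_assoc]
  have ha'a' : ∀ z, a' * (a * z) = a * (a' * z) := fun z => by
    rw [← mul_assoc, ha'a, mul_assoc]
  have hd'a' : ∀ z, d' * (a * z) = a * (d' * z) := fun z => by
    rw [← mul_assoc, hd'a, mul_assoc]
  obtain ⟨Y, hY⟩ : ∃ Y, Y = Q * a' * Q := ⟨_, rfl⟩
  have hYa : Y * a = a * Y := by
    rw [hY]
    calc Q * a' * Q * a = Q * a' * (Q * a) := by rw [mul_assoc]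
      _ = Q * (a' * a) * Q := by rw [hQa]; simp only [mul_assoc]
      _ = (Q * a) * a' * Q := by rw [ha'a]; simp only [mul_assoc]
      _ = a * (Q * a' * Q) := by rw [hQa]; simp only [mul_assoc]
  have hYP : Y * P = 0 := by
    rw [hY, mul_assoc, mul_assoc, hQP, ha'P, mul_zero]
  rw [← hY] at hP
  -- (1)
  have h1 : a * P * a = -((2 - g) • (a * Y)) := by
    have t1 : a * Q * a = 0 := by rw [← hQa, mul_assoc, haa, mul_zero]
    have t2 : a * (Y * d) * a = -(a * Y) := by
      calc a * (Y * d) * a = (a * Y) * d * a := by simp only [mul_assoc]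
        _ = Y * (a * d * a) := by rw [← hYa]; simp only [mul_assoc]
        _ = -(a * Y) := by rw [hada, mul_neg, hYa]
    have t3 : a * (d * Y) * a = -(a * Y) := by
      calc a * (d * Y) * a = a * d * (Y * a) := by simp only [mul_assoc]
        _ = (a * d * a) * Y := by rw [hYa]; simp only [mul_assoc]
        _ = -(a * Y) := by rw [hada, neg_mul]
    have t4 : g • (a * (Q * (a' * d' * d * a') * Q) * a) = g • (a * Y) := by
      have s1 : a * (Q * (a' * d' * d * a') * Q) * a = Q * a' * d' * (a * d * a) * (a' * Q) := by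
        simp only [mul_assoc, hQa, hQa', ha'a', hd'a']
      have s2 : Q * a' * d' * (a * d * a) * (a' * Q) = -(a * (Q * (a' * d' * a') * Q)) := by
        rw [hada]
        calc Q * a' * d' * -a * (a' * Q) = -(Q * a' * (d' * a) * a' * Q) := by
              simp only [mul_neg, neg_mul, mul_assoc]
          _ = -(Q * (a' * a) * d' * a' * Q) := by rw [hd'a]; simp only [mul_assoc]
          _ = -((Q * a) * a' * d' * a' * Q) := by rw [ha'a]; simp only [mul_assoc]
          _ = -(a * (Q * (a' * d' * a') * Q)) := by rw [hQa]; simp only [mul_assoc]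
      have s3 : g • (Q * (a' * d' * a') * Q) = -(g • Y) := by
        calc g • (Q * (a' * d' * a') * Q) = Q * (g • (a' * d' * a')) * Q := by
              rw [mul_smul_comm, smul_mul_assoc]
          _ = -(g • Y) := by
              rw [hg, mul_neg, neg_mul, mul_smul_comm, smul_mul_assoc, hY]
      rw [s1, s2, smul_neg, ← mul_smul_comm, s3, mul_neg, neg_neg, mul_smul_comm]
    have e : a * P * a = a * Q * a + a * (Y * d) * a + a * (d * Y) * a +
        g • (a * (Q * (a' * d' * d * a') * Q) * a) := by
      rw [hP]
      simp only [mul_add, add_mul, mul_smul_comm, smul_mul_assoc]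
    rw [e, t1, t2, t3, t4, sub_smul, two_smul]
    abel
  have h2 : a * P * a * P = 0 := by
    rw [h1, neg_mul, smul_mul_assoc, mul_assoc, hYP, mul_zero, smul_zero, neg_zero]
  rw [← hY]
  exact ⟨h1, h2⟩

private theorem stepL {P Q a b d a' d' : E} {g γ : ℚ}
    (hP : P = Q + Q * a' * Q * d + d * (Q * a' * Q) + g • (Q * (a' * d' * d * a') * Q))
    (hQa : Q * a = a * Q) (ha'a : a' * a = a * a') (hd'a : d' * a = a * d')
    (hQb : Q * b = b * Q) (ha'b : a' * b = b * a') (hPb : P * b = b * P) (hdb : d * b = b * d)
    (haa : a * a = 0) (hbb : b * b = 0) (haba : a * b * a = -a) (hbab : b * a * b = -b)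
    (hada : a * d * a = -a) (hg : g • (a' * d' * a') = -(g • a')) (hγ : γ * (2 - g) = 1)
    (hQP : Q * P = P) (ha'P : a' * P = 0) (hPP : P * P = P) (hPd : P * d = 0) :
    a * P * a * P = 0 ∧
    a * (P + P * a * P * b + b * P * a * P + γ • (P * (a * d * b * a) * P)) = 0 ∧
    b * (P + P * a * P * b + b * P * a * P + γ • (P * (a * d * b * a) * P)) = 0 := by
  have hQa' : ∀ z, Q * (a * z) = a * (Q * z) := fun z => by
    rw [← mul_assoc, hQa, mul_assoc]
  have ha'a' : ∀ z, a' * (a * z) = a * (a' * z) := fun z => by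
    rw [← mul_assoc, ha'a, mul_assoc]
  have hd'a' : ∀ z, d' * (a * z) = a * (d' * z) := fun z => by
    rw [← mul_assoc, hd'a, mul_assoc]
  have hPb' : ∀ z, b * (P * z) = P * (b * z) := fun z => by
    rw [← mul_assoc, ← hPb, mul_assoc]
  obtain ⟨Y, hY⟩ : ∃ Y, Y = Q * a' * Q := ⟨_, rfl⟩
  have hYa : Y * a = a * Y := by
    rw [hY]
    calc Q * a' * Q * a = Q * a' * (Q * a) := by rw [mul_assoc]
      _ = Q * (a' * a) * Q := by rw [hQa]; simp only [mul_assoc]
      _ = (Q * a) * a' * Q := by rw [ha'a]; simp only [mul_assoc]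
      _ = a * (Q * a' * Q) := by rw [hQa]; simp only [mul_assoc]
  have hYb : Y * b = b * Y := by
    rw [hY]
    calc Q * a' * Q * b = Q * a' * (Q * b) := by rw [mul_assoc]
      _ = Q * (a' * b) * Q := by rw [hQb]; simp only [mul_assoc]
      _ = (Q * b) * a' * Q := by rw [ha'b]; simp only [mul_assoc]
      _ = b * (Q * a' * Q) := by rw [hQb]; simp only [mul_assoc]
  have hYP : Y * P = 0 := by
    rw [hY, mul_assoc, mul_assoc, hQP, ha'P, mul_zero]
  obtain ⟨h1, h2⟩ := stepD hP hQa ha'a hd'a haa hada hg hQP ha'P
  rw [← hY] at hP h1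
  obtain ⟨w, hw⟩ : ∃ w, w = a * d * b * a := ⟨_, rfl⟩
  -- (2)
  have h3 : a * P * (b * a) * P = -(a * P) + Y * w * P := by
    have t1 : a * Q * (b * a) = -(a * Q) := by
      calc a * Q * (b * a) = (a * (Q * b)) * a := by simp only [mul_assoc]
        _ = a * b * (Q * a) := by rw [hQb]; simp only [mul_assoc]
        _ = (a * b * a) * Q := by rw [hQa]; simp only [mul_assoc]
        _ = -(a * Q) := by rw [haba, neg_mul]
    have t2 : a * (Y * d) * (b * a) = Y * w := by
      rw [hw]
      calc a * (Y * d) * (b * a) = (a * Y) * d * b * a := by simp only [mul_assoc]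
        _ = Y * (a * d * b * a) := by rw [← hYa]; simp only [mul_assoc]
    have t3 : a * (d * Y) * (b * a) = w * Y := by
      rw [hw]
      calc a * (d * Y) * (b * a) = a * d * (Y * b) * a := by simp only [mul_assoc]
        _ = a * d * b * (Y * a) := by rw [hYb]; simp only [mul_assoc]
        _ = a * d * b * a * Y := by rw [hYa]; simp only [mul_assoc]
    have t4 : a * (Q * (a' * d' * d * a') * Q) * (b * a) =
        Q * a' * d' * w * (a' * Q) := by
      rw [hw]
      calc a * (Q * (a' * d' * d * a') * Q) * (b * a)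
          = (a * Q) * a' * d' * d * a' * (Q * b) * a := by simp only [mul_assoc]
        _ = Q * (a * a') * d' * d * (a' * b) * (Q * a) := by
            rw [← hQa, hQb]; simp only [mul_assoc]
        _ = Q * a' * (a * d') * d * b * (a' * a) * Q := by
            rw [← ha'a, ha'b, hQa]; simp only [mul_assoc]
        _ = Q * a' * d' * (a * d * b * a) * (a' * Q) := by
            rw [← hd'a, ha'a]; simp only [mul_assoc]
    have e : a * P * (b * a) = a * Q * (b * a) + a * (Y * d) * (b * a) + a * (d * Y) * (b * a) +
        g • (a * (Q * (a' * d' * d * a') * Q) * (b * a)) := by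
      conv_lhs => rw [hP]
      simp only [mul_add, add_mul, mul_smul_comm, smul_mul_assoc]
    have u1 : a * Q * P = a * P := by rw [mul_assoc, hQP]
    have u2 : w * Y * P = 0 := by rw [mul_assoc, hYP, mul_zero]
    have u3 : Q * a' * d' * w * (a' * Q) * P = 0 := by
      rw [mul_assoc, mul_assoc a', hQP, ha'P, mul_zero]
    rw [e, t1, t2, t3, t4, add_mul, add_mul, add_mul, neg_mul, u1, u2, smul_mul_assoc, u3,
      smul_zero]
    abel
  -- (3)
  have h4 : a * P * w * P = -((2 - g) • (Y * w * P)) := by
    calc a * P * w * P = (a * P * a) * d * b * a * P := by rw [hw]; simp only [mul_assoc]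
      _ = -((2 - g) • ((a * Y) * d * b * a * P)) := by
          rw [h1]; simp only [neg_mul, smul_mul_assoc]
      _ = -((2 - g) • (Y * w * P)) := by rw [← hYa, hw]; simp only [mul_assoc]
  refine ⟨h2, ?_, ?_⟩
  · -- (4)
    have v1 : a * (P * a * P * b) = 0 := by
      calc a * (P * a * P * b) = (a * P * a * P) * b := by simp only [mul_assoc]
        _ = 0 := by rw [h2, zero_mul]
    have v2 : a * (b * P * a * P) = -(a * P) + Y * w * P := by
      rw [← h3]
      calc a * (b * P * a * P) = a * (b * P) * a * P := by simp only [mul_assoc]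
        _ = _ := by rw [← hPb]; simp only [mul_assoc]
    have v3 : a * (P * (a * d * b * a) * P) = -((2 - g) • (Y * w * P)) := by
      rw [← h4, ← hw]
      simp only [mul_assoc]
    rw [mul_add, mul_add, mul_add, mul_smul_comm, v1, v2, v3, smul_neg, smul_smul, hγ, one_smul]
    abel
  · -- (5)
    have v1 : b * (P * a * P * b) = -(b * P) := by
      calc b * (P * a * P * b) = (b * P) * a * (P * b) := by simp only [mul_assoc]
        _ = P * (b * a * b) * P := by simp only [mul_assoc, hPb, hPb']
        _ = -(P * b * P) := by rw [hbab]; simp only [mul_neg, neg_mul]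
        _ = -(b * P) := by rw [hPb, mul_assoc, hPP]
    have v2 : b * (b * P * a * P) = 0 := by
      calc b * (b * P * a * P) = (b * b) * P * a * P := by simp only [mul_assoc]
        _ = 0 := by rw [hbb]; simp only [zero_mul]
    have v3 : b * (P * (a * d * b * a) * P) = 0 := by
      calc b * (P * (a * d * b * a) * P) = (b * P) * a * (d * b) * a * P := by
            simp only [mul_assoc]
        _ = P * (b * a * b) * d * a * P := by rw [← hPb, hdb]; simp only [mul_assoc]
        _ = -(P * (b * d) * a * P) := by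
            rw [hbab]; simp only [mul_neg, neg_mul, mul_assoc]
        _ = -((P * d) * b * a * P) := by rw [← hdb]; simp only [mul_assoc]
        _ = 0 := by rw [hPd]; simp only [zero_mul, neg_zero]
    rw [mul_add, mul_add, mul_add, mul_smul_comm, v1, v2, v3, smul_zero]
    abel

private theorem stepJ {P a b w c : E} {γ : ℚ} (hP : c * P = 0) (hb : c * b = b * c) :
    c * (P + P * a * P * b + b * P * a * P + γ • (P * w * P)) = 0 := by
  simp only [mul_add, mul_smul_comm, ← mul_assoc]
  rw [hb, mul_assoc b c, hP]
  simp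

end step

section props

variable {E : Type} [Ring E] [Algebra ℚ E]

private theorem PP_commute (x : ℕ → E) (y : E) : ∀ m, (∀ j, j < 2 * m → Commute (x j) y) →
    Commute (PP x m) y
  | 0, _ => Commute.one_left y
  | m + 1, h => by
    have hP : Commute (PP x m) y := PP_commute x y m fun j hj => h j (by omega)
    have ha : Commute (x (2 * m)) y := h _ (by omega)
    have hb : Commute (x (2 * m + 1)) y := h _ (by omega)
    have hd : Commute (x (2 * m - 1)) y := h _ (by omega)
    unfold PP
    refine ((hP.add_left ?_).add_left ?_).add_left (Commute.smul_left ?_ _)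
    · exact ((hP.mul_left ha).mul_left hP).mul_left hb
    · exact ((hb.mul_left hP).mul_left ha).mul_left hP
    · exact (hP.mul_left (((ha.mul_left hd).mul_left hb).mul_left ha)).mul_left hP

private theorem PP_KR (x : ℕ → E) (z : E) : ∀ m, (∀ j, j < 2 * m → z * x j = 0) →
    z * PP x m = z
  | 0, _ => mul_one z
  | m + 1, h => by
    have hP : z * PP x m = z := PP_KR x z m fun j hj => h j (by omega)
    have ha : z * x (2 * m) = 0 := h _ (by omega)
    have hb : z * x (2 * m + 1) = 0 := h _ (by omega)
    have e1 : z * (PP x m * x (2 * m) * PP x m * x (2 * m + 1)) = 0 := by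
      calc z * (PP x m * x (2 * m) * PP x m * x (2 * m + 1))
          = (z * PP x m) * x (2 * m) * PP x m * x (2 * m + 1) := by simp only [mul_assoc]
        _ = 0 := by rw [hP, ha, zero_mul, zero_mul]
    have e2 : z * (x (2 * m + 1) * PP x m * x (2 * m) * PP x m) = 0 := by
      calc z * (x (2 * m + 1) * PP x m * x (2 * m) * PP x m)
          = (z * x (2 * m + 1)) * PP x m * x (2 * m) * PP x m := by simp only [mul_assoc]
        _ = 0 := by rw [hb, zero_mul, zero_mul, zero_mul]
    have e3 : z * (PP x m * (x (2 * m) * x (2 * m - 1) * x (2 * m + 1) * x (2 * m)) * PP x m) =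
        0 := by
      calc z * (PP x m * (x (2 * m) * x (2 * m - 1) * x (2 * m + 1) * x (2 * m)) * PP x m)
          = (z * PP x m) * x (2 * m) * x (2 * m - 1) * x (2 * m + 1) * x (2 * m) * PP x m := by
            simp only [mul_assoc]
        _ = 0 := by rw [hP, ha]; simp only [zero_mul]
    unfold PP
    rw [mul_add, mul_add, mul_add, mul_smul_comm, e1, e2, e3, hP, smul_zero, add_zero, add_zero,
      add_zero]

private theorem PP_op {k : ℕ} {x : ℕ → E} (hx : XL k x) : ∀ m, 2 * m + 1 ≤ k →
    PP (fun j => MulOpposite.op (x j)) m = MulOpposite.op (PP x m)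
  | 0, _ => rfl
  | m + 1, hk => by
    have ih := PP_op hx m (by omega)
    have hb : Commute (PP x m) (x (2 * m + 1)) := PP_commute x _ m fun j hj =>
      hx.comm j (2 * m + 1) (by omega) (by omega)
    unfold PP
    rw [ih]
    simp only [← MulOpposite.op_mul, ← MulOpposite.op_smul, ← MulOpposite.op_add]
    congr 1
    have e1 : x (2 * m) * (x (2 * m + 1) * (x (2 * m - 1) * x (2 * m))) =
        x (2 * m) * x (2 * m - 1) * x (2 * m + 1) * x (2 * m) ∨ m = 0 := by
      rcases Nat.eq_zero_or_pos m with h | h
      · exact Or.inr h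
      · left
        have h1 := hx.comm (2 * m - 1) (2 * m + 1) (by omega) (by omega)
        calc x (2 * m) * (x (2 * m + 1) * (x (2 * m - 1) * x (2 * m)))
            = x (2 * m) * (x (2 * m + 1) * x (2 * m - 1)) * x (2 * m) := by
              simp only [mul_assoc]
          _ = _ := by rw [← h1]; simp only [mul_assoc]
    rcases e1 with e1 | e1
    · rw [e1]
      simp only [mul_assoc]
      abel
    · subst e1
      simp only [Nat.cast_zero, zero_div, zero_smul, mul_assoc]
      abel

omit [Algebra ℚ E] in
private theorem XL.op {k : ℕ} {x : ℕ → E} (hx : XL k x) :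
    XL k (fun j => MulOpposite.op (x j)) where
  sq j hj := by rw [← MulOpposite.op_mul, hx.sq j hj, MulOpposite.op_zero]
  up j hj := by
    rw [← MulOpposite.op_mul, ← MulOpposite.op_mul, ← mul_assoc, hx.up j hj, MulOpposite.op_neg]
  dn j hj := by
    rw [← MulOpposite.op_mul, ← MulOpposite.op_mul, ← mul_assoc, hx.dn j hj, MulOpposite.op_neg]
  comm i j hij hj := by
    rw [← MulOpposite.op_mul, ← MulOpposite.op_mul, hx.comm i j hij hj]

end props

private theorem hg_aux {E : Type} [Ring E] [Algebra ℚ E] {k : ℕ} {x : ℕ → E} (hx : XL k x)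
    (n : ℕ) (hn : 2 * n + 1 < k) :
    ((n : ℚ) / (n + 1)) • (x (2 * n) * x (2 * n - 1) * x (2 * n)) =
      -(((n : ℚ) / (n + 1)) • x (2 * n)) := by
  rcases Nat.eq_zero_or_pos n with h | h
  · subst h
    simp
  · obtain ⟨j, hj⟩ : ∃ j, 2 * n = j + 1 := ⟨2 * n - 1, by omega⟩
    have h1 := hx.dn j (by omega)
    rw [hj, Nat.add_sub_cancel, h1, smul_neg]

private theorem gamma_aux (n : ℕ) :
    (((n + 1 : ℕ) : ℚ) / ((n + 1 : ℕ) + 1)) * (2 - (n : ℚ) / (n + 1)) = 1 := by
  have h1 : (n : ℚ) + 1 ≠ 0 := by positivity
  have h2 : (n : ℚ) + 1 + 1 ≠ 0 := by positivity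
  push_cast
  field_simp
  ring

private theorem L_main : ∀ m : ℕ, ∀ (E : Type) [Ring E] [Algebra ℚ E] (k : ℕ) (x : ℕ → E),
    XL k x → 2 * m + 1 ≤ k → ∀ j, j < 2 * m → x j * PP x m = 0 := by
  intro m
  induction m using Nat.strong_induction_on with
  | _ m ih =>
    intro E _ _ k x hx hk j hj
    rcases m with _ | m
    · omega
    rcases m with _ | n
    · -- one step
      have haa := hx.sq 0 (by omega)
      have hbb := hx.sq 1 (by omega)
      have haba := hx.up 0 (by omega)
      have hbab := hx.dn 0 (by omega)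
      have e : PP x 1 = 1 + x 0 * x 1 + x 1 * x 0 := by
        simp [PP]
      rw [show 0 + 1 = 1 from rfl, e]
      have : j = 0 ∨ j = 1 := by omega
      rcases this with rfl | rfl
      · rw [mul_add, mul_add, mul_one, ← mul_assoc, haa, zero_mul, ← mul_assoc, haba]
        abel
      · rw [mul_add, mul_add, mul_one, ← mul_assoc, hbab, ← mul_assoc, hbb, zero_mul]
        abel
    · have LQ := ih n (by omega) E k x hx (by omega)
      have LP := ih (n + 1) (by omega) E k x hx (by omega)
      have RP : ∀ j, j < 2 * (n + 1) → PP x (n + 1) * x j = 0 := by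
        intro j hj
        have h1 := ih (n + 1) (by omega) Eᵐᵒᵖ k (fun j => MulOpposite.op (x j)) hx.op (by omega)
          j hj
        rw [PP_op hx (n + 1) (by omega), ← MulOpposite.op_mul] at h1
        exact MulOpposite.op_injective (by rw [h1, MulOpposite.op_zero])
      have KLQ : ∀ z, (∀ j, j < 2 * n → x j * z = 0) → PP x n * z = z := by
        intro z hz
        have h1 := PP_KR (fun j => MulOpposite.op (x j)) (MulOpposite.op z) n (fun j hj => by
          rw [← MulOpposite.op_mul, hz j hj, MulOpposite.op_zero])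
        rw [PP_op hx n (by omega), ← MulOpposite.op_mul] at h1
        exact MulOpposite.op_injective h1
      have hPP : PP x (n + 1) * PP x (n + 1) = PP x (n + 1) := PP_KR x _ (n + 1) RP
      have cb : ∀ y, (∀ i, i < 2 * n → Commute (x i) y) → PP x n * y = y * PP x n :=
        fun y hy => (PP_commute x y n hy).eq
      have hstep := stepL (P := PP x (n + 1)) (Q := PP x n) (a := x (2 * (n + 1)))
        (b := x (2 * (n + 1) + 1)) (d := x (2 * (n + 1) - 1)) (a' := x (2 * n))
        (d' := x (2 * n - 1)) (g := (n : ℚ) / (n + 1))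
        (γ := ((n + 1 : ℕ) : ℚ) / ((n + 1 : ℕ) + 1))
        (by
          rw [show 2 * (n + 1) - 1 = 2 * n + 1 by omega]
          conv_lhs => unfold PP
          simp only [mul_assoc])
        (cb _ fun i hi => hx.comm i _ (by omega) (by omega))
        (hx.comm _ _ (by omega) (by omega))
        (hx.comm _ _ (by omega) (by omega))
        (cb _ fun i hi => hx.comm i _ (by omega) (by omega))
        (hx.comm _ _ (by omega) (by omega))
        (PP_commute x _ (n + 1) fun i hi => hx.comm i _ (by omega) (by omega)).eq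
        (hx.comm _ _ (by omega) (by omega))
        (hx.sq _ (by omega)) (hx.sq _ (by omega)) (hx.up _ (by omega)) (hx.dn _ (by omega))
        (by
          have h1 := hx.dn (2 * (n + 1) - 1) (by omega)
          rwa [show 2 * (n + 1) - 1 + 1 = 2 * (n + 1) by omega] at h1)
        (hg_aux hx n (by omega)) (gamma_aux n)
        (KLQ _ fun j hj => LP j (by omega)) (LP _ (by omega)) hPP (RP _ (by omega))
      obtain ⟨-, h2, h3⟩ := hstep
      have hjs : j < 2 * (n + 1) ∨ j = 2 * (n + 1) ∨ j = 2 * (n + 1) + 1 := by omega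
      rcases hjs with h | h | h
      · have hP0 := LP j h
        have hjb := hx.comm j (2 * (n + 1) + 1) (by omega) (by omega)
        exact stepJ hP0 hjb
      · rw [h]
        exact h2
      · rw [h]
        exact h3

theorem tZj : S_Zj := by
  intro E _ _ k x hx m hk
  have L := L_main m E k x hx hk
  have R : ∀ j, j < 2 * m → PP x m * x j = 0 := by
    intro j hj
    have h1 := L_main m Eᵐᵒᵖ k (fun j => MulOpposite.op (x j)) hx.op hk j hj
    rw [PP_op hx m hk, ← MulOpposite.op_mul] at h1
    exact MulOpposite.op_injective (by rw [h1, MulOpposite.op_zero])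
  refine ⟨L, R, fun y hy => PP_commute x y m hy, fun z hz => PP_KR x z m hz, ?_, ?_⟩
  · intro z hz
    have h1 := PP_KR (fun j => MulOpposite.op (x j)) (MulOpposite.op z) m (fun j hj => by
      rw [← MulOpposite.op_mul, hz j hj, MulOpposite.op_zero])
    rw [PP_op hx m hk, ← MulOpposite.op_mul] at h1
    exact MulOpposite.op_injective h1
  · intro hk2
    rcases m with _ | n
    · change x 0 * 1 * x 0 * 1 = 0
      rw [mul_one, mul_one, hx.sq 0 (by omega)]
    · have KLQ : ∀ z, (∀ j, j < 2 * n → x j * z = 0) → PP x n * z = z := by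
        intro z hz
        have h1 := PP_KR (fun j => MulOpposite.op (x j)) (MulOpposite.op z) n (fun j hj => by
          rw [← MulOpposite.op_mul, hz j hj, MulOpposite.op_zero])
        rw [PP_op hx n (by omega), ← MulOpposite.op_mul] at h1
        exact MulOpposite.op_injective h1
      have cb : ∀ y, (∀ i, i < 2 * n → Commute (x i) y) → PP x n * y = y * PP x n :=
        fun y hy => (PP_commute x y n hy).eq
      exact (stepD (P := PP x (n + 1)) (Q := PP x n) (a := x (2 * (n + 1)))
        (d := x (2 * (n + 1) - 1)) (a' := x (2 * n))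
        (d' := x (2 * n - 1)) (g := (n : ℚ) / (n + 1))
        (by
          rw [show 2 * (n + 1) - 1 = 2 * n + 1 by omega]
          conv_lhs => unfold PP
          simp only [mul_assoc])
        (cb _ fun i hi => hx.comm i _ (by omega) (by omega))
        (hx.comm _ _ (by omega) (by omega))
        (hx.comm _ _ (by omega) (by omega))
        (hx.sq _ (by omega))
        (by
          have h1 := hx.dn (2 * (n + 1) - 1) (by omega)
          rwa [show 2 * (n + 1) - 1 + 1 = 2 * (n + 1) by omega] at h1)
        (hg_aux hx n (by omega))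
        (KLQ _ fun j hj => L j (by omega)) (L _ (by omega))).2

end MP_fc1011_gt.LM
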